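import Pool.Agent.Helper73.CF.Three

/-!
Arcs of great circles and the Riemannian distance.
-/

open Filter Topology MeasureTheory Set

namespace Pool.Agent.Helper73.CF

open scoped NNReal

noncomputable section

variable {n : ℕ}

/-- a smooth curve on the sphere, given with its derivative -/
structure Arc (n : ℕ) where
  γ : ℝ → Sph n
  γ' : ℝ → EuclideanSpace ℝ (Fin (n + 1))
  der : ∀ t, HasDerivAt (fun u => (γ u : EuclideanSpace ℝ (Fin (n + 1)))) (γ' t) t
  cont : Continuous γ'
  K : ℝ≥0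
  lip : LipschitzWith K γ

theorem ConfMetric.arc_len (M : ConfMetric n) (a : Arc n) :
    M.curveLen a.γ = ∫ t in (0 : ℝ)..1, ‖a.γ' t‖ / M.h (a.γ t) := by
  unfold ConfMetric.curveLen
  refine intervalIntegral.integral_congr (fun t _ => ?_)
  beta_reduce
  rw [(a.der t).deriv]

theorem ConfMetric.arc_cont (M : ConfMetric n) (a : Arc n) :
    Continuous (fun t => ‖a.γ' t‖ / M.h (a.γ t)) :=
  a.cont.norm.div (M.continuous_h.comp a.lip.continuous) (fun _ => (M.pos _).ne')

/-- two arcs with a common starting point -/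
def join (a b : Arc n) (t : ℝ) : Sph n := if t ≤ 1 / 2 then a.γ (1 - 2 * t) else b.γ (2 * t - 1)

theorem join_lip (a b : Arc n) (h : a.γ 0 = b.γ 0) : ∃ K : ℝ≥0, LipschitzWith K (join a b) := by
  refine ⟨2 * (a.K + b.K), ?_⟩
  have hA : ∀ s t : ℝ, dist (a.γ (1 - 2 * s)) (a.γ (1 - 2 * t)) ≤ 2 * a.K * |s - t| := by
    intro s t
    have := a.lip.dist_le_mul (1 - 2 * s) (1 - 2 * t)
    rw [Real.dist_eq, show (1 - 2 * s) - (1 - 2 * t) = -(2 * (s - t)) by ring, abs_neg, abs_mul,
      abs_two] at this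
    linarith
  have hB : ∀ s t : ℝ, dist (b.γ (2 * s - 1)) (b.γ (2 * t - 1)) ≤ 2 * b.K * |s - t| := by
    intro s t
    have := b.lip.dist_le_mul (2 * s - 1) (2 * t - 1)
    rw [Real.dist_eq, show (2 * s - 1) - (2 * t - 1) = 2 * (s - t) by ring, abs_mul,
      abs_two] at this
    linarith
  have ha0 : (0 : ℝ) ≤ a.K := a.K.2
  have hb0 : (0 : ℝ) ≤ b.K := b.K.2
  have key : ∀ s t : ℝ, s ≤ t → dist (join a b s) (join a b t)
      ≤ 2 * (a.K + b.K) * |s - t| := by
    intro s t hst
    have h0 : (0 : ℝ) ≤ |s - t| := abs_nonneg _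
    unfold join
    by_cases ht : t ≤ 1 / 2
    · rw [if_pos (hst.trans ht), if_pos ht]
      refine (hA s t).trans ?_
      nlinarith [mul_nonneg hb0 h0]
    · rw [if_neg ht]
      by_cases hs : s ≤ 1 / 2
      · rw [if_pos hs]
        have e1 := hA s (1 / 2)
        have e2 := hB (1 / 2) t
        rw [show (1 : ℝ) - 2 * (1 / 2) = 0 by norm_num] at e1
        rw [show (2 : ℝ) * (1 / 2) - 1 = 0 by norm_num] at e2
        rw [h] at e1
        have e3 : |s - 1 / 2| = 1 / 2 - s := by rw [abs_sub_comm]; exact abs_of_nonneg (by linarith)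
        have e4 : |1 / 2 - t| = t - 1 / 2 := by
          rw [abs_sub_comm]; exact abs_of_nonneg (by push Not at ht; linarith)
        have e5 : |s - t| = t - s := by rw [abs_sub_comm]; exact abs_of_nonneg (by linarith)
        rw [e3] at e1
        rw [e4] at e2
        rw [e5]
        push Not at ht
        have := dist_triangle (a.γ (1 - 2 * s)) (b.γ 0) (b.γ (2 * t - 1))
        nlinarith [mul_nonneg ha0 (by linarith : (0 : ℝ) ≤ t - 1 / 2),
          mul_nonneg hb0 (by linarith : (0 : ℝ) ≤ 1 / 2 - s)]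
      · rw [if_neg hs]
        refine (hB s t).trans ?_
        nlinarith [mul_nonneg ha0 h0]
  refine LipschitzWith.of_dist_le_mul (fun s t => ?_)
  rw [Real.dist_eq]
  push_cast
  rcases le_total s t with hst | hst
  · exact key s t hst
  · rw [dist_comm, abs_sub_comm]; exact key t s hst

theorem join_len (M : ConfMetric n) (a b : Arc n) :
    M.curveLen (join a b) = M.curveLen a.γ + M.curveLen b.γ := by
  have hne : ∀ᵐ t : ℝ, t ≠ 1 / 2 := by
    rw [ae_iff]; simp
  set f : ℝ → ℝ := fun t => ‖deriv (fun u => (join a b u : EuclideanSpace ℝ (Fin (n + 1)))) t‖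
    / M.h (join a b t) with hf
  set g1 : ℝ → ℝ := fun t => 2 * (‖a.γ' (1 - 2 * t)‖ / M.h (a.γ (1 - 2 * t))) with hg1
  set g2 : ℝ → ℝ := fun t => 2 * (‖b.γ' (2 * t - 1)‖ / M.h (b.γ (2 * t - 1))) with hg2
  have c1 : Continuous g1 := continuous_const.mul ((M.arc_cont a).comp (by fun_prop))
  have c2 : Continuous g2 := continuous_const.mul ((M.arc_cont b).comp (by fun_prop))
  have e1 : ∀ t, t < 1 / 2 → f t = g1 t := by
    intro t ht
    have h1 : (fun u => (join a b u : EuclideanSpace ℝ (Fin (n + 1))))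
        =ᶠ[𝓝 t] fun u => (a.γ (1 - 2 * u) : EuclideanSpace ℝ (Fin (n + 1))) := by
      filter_upwards [Iio_mem_nhds ht] with u hu
      unfold join
      rw [if_pos (le_of_lt hu)]
    have h2 : HasDerivAt (fun u : ℝ => 1 - 2 * u) (-2) t := by
      simpa using ((hasDerivAt_id t).const_mul 2).const_sub 1
    have h3 := (a.der (1 - 2 * t)).scomp t h2
    have h4 : deriv (fun u => (join a b u : EuclideanSpace ℝ (Fin (n + 1)))) t
        = (-2 : ℝ) • a.γ' (1 - 2 * t) := by
      rw [h1.deriv_eq]; exact h3.deriv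
    rw [hf, hg1]
    beta_reduce
    rw [h4, norm_smul]
    have h5 : join a b t = a.γ (1 - 2 * t) := by unfold join; rw [if_pos ht.le]
    rw [h5]
    norm_num
    ring
  have e2 : ∀ t, 1 / 2 < t → f t = g2 t := by
    intro t ht
    have h1 : (fun u => (join a b u : EuclideanSpace ℝ (Fin (n + 1))))
        =ᶠ[𝓝 t] fun u => (b.γ (2 * u - 1) : EuclideanSpace ℝ (Fin (n + 1))) := by
      filter_upwards [Ioi_mem_nhds ht] with u hu
      unfold join
      rw [if_neg (not_le_of_gt hu)]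
    have h2 : HasDerivAt (fun u : ℝ => 2 * u - 1) 2 t := by
      simpa using ((hasDerivAt_id t).const_mul 2).sub_const 1
    have h3 := (b.der (2 * t - 1)).scomp t h2
    have h4 : deriv (fun u => (join a b u : EuclideanSpace ℝ (Fin (n + 1)))) t
        = (2 : ℝ) • b.γ' (2 * t - 1) := by
      rw [h1.deriv_eq]; exact h3.deriv
    rw [hf, hg2]
    beta_reduce
    rw [h4, norm_smul]
    have h5 : join a b t = b.γ (2 * t - 1) := by unfold join; rw [if_neg (not_le_of_gt ht)]
    rw [h5]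
    norm_num
    ring
  have a1 : ∀ᵐ t : ℝ, t ∈ uIoc (0 : ℝ) (1 / 2) → g1 t = f t := by
    filter_upwards [hne] with t ht hmem
    rw [uIoc_of_le (by norm_num)] at hmem
    exact (e1 t (lt_of_le_of_ne hmem.2 ht)).symm
  have a2 : ∀ᵐ t : ℝ, t ∈ uIoc (1 / 2 : ℝ) 1 → g2 t = f t := by
    filter_upwards with t hmem
    rw [uIoc_of_le (by norm_num)] at hmem
    exact (e2 t hmem.1).symm
  have i1 : IntervalIntegrable f volume 0 (1 / 2) := by
    refine (c1.intervalIntegrable 0 (1 / 2)).congr_ae ?_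
    exact (ae_restrict_iff' measurableSet_uIoc).2 a1
  have i2 : IntervalIntegrable f volume (1 / 2) 1 := by
    refine (c2.intervalIntegrable (1 / 2) 1).congr_ae ?_
    exact (ae_restrict_iff' measurableSet_uIoc).2 a2
  have s1 : ∫ t in (0 : ℝ)..(1 / 2), f t = M.curveLen a.γ := by
    rw [← intervalIntegral.integral_congr_ae a1, hg1, intervalIntegral.integral_const_mul,
      intervalIntegral.integral_comp_sub_mul (fun s => ‖a.γ' s‖ / M.h (a.γ s)) two_ne_zero 1,
      M.arc_len]
    norm_num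
    ring
  have s2 : ∫ t in (1 / 2 : ℝ)..1, f t = M.curveLen b.γ := by
    rw [← intervalIntegral.integral_congr_ae a2, hg2, intervalIntegral.integral_const_mul,
      intervalIntegral.integral_comp_mul_sub (fun s => ‖b.γ' s‖ / M.h (b.γ s)) two_ne_zero 1,
      M.arc_len]
    norm_num
    ring
  have : M.curveLen (join a b) = ∫ t in (0 : ℝ)..1, f t := rfl
  rw [this, ← intervalIntegral.integral_add_adjacent_intervals i1 i2, s1, s2]

theorem ConfMetric.curveLen_nonneg (M : ConfMetric n) (γ : ℝ → Sph n) : 0 ≤ M.curveLen γ := by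
  unfold ConfMetric.curveLen
  refine intervalIntegral.integral_nonneg (by norm_num) (fun t _ => ?_)
  have := M.pos (γ t)
  positivity

/-- the distance is bounded by the lengths of two arcs with a common starting point -/
theorem dist_le_arcs (M : ConfMetric n) (a b : Arc n) (h : a.γ 0 = b.γ 0) :
    M.dist (a.γ 1) (b.γ 1) ≤ M.curveLen a.γ + M.curveLen b.γ := by
  rw [← join_len]
  refine csInf_le ⟨0, ?_⟩ ?_
  · rintro l ⟨γ, -, -, -, rfl⟩
    exact M.curveLen_nonneg γ
  · refine ⟨join a b, join_lip a b h, ?_, ?_, rfl⟩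
    · unfold join; norm_num
    · unfold join; norm_num

/-- great circle arc -/
def great (X : Sph n) (e : EuclideanSpace ℝ (Fin (n + 1))) (he : ‖e‖ = 1)
    (hXe : inner ℝ X.1 e = 0) (θ : ℝ) (hθ : 0 ≤ θ) : Arc n where
  γ t := ⟨Real.cos (t * θ) • X.1 + Real.sin (t * θ) • e, by
    rw [mem_sphere_zero_iff_norm]
    have h1 : ‖Real.cos (t * θ) • X.1 + Real.sin (t * θ) • e‖ ^ 2 = 1 := by
      rw [@norm_add_sq_real, norm_smul, norm_smul, inner_smul_left, inner_smul_right, hXe, he,
        sph_norm]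
      simp only [Real.norm_eq_abs, mul_one, sq_abs, mul_zero, add_zero]
      exact Real.cos_sq_add_sin_sq _
    nlinarith [norm_nonneg (Real.cos (t * θ) • X.1 + Real.sin (t * θ) • e)]⟩
  γ' t := (-(Real.sin (t * θ) * θ)) • X.1 + (Real.cos (t * θ) * θ) • e
  der t := by
    have h0 : HasDerivAt (fun t : ℝ => t * θ) θ t := by simpa using (hasDerivAt_id t).mul_const θ
    have h1 := h0.cos.smul_const X.1
    have h2 := h0.sin.smul_const e
    refine (h1.add h2).congr_deriv ?_
    rw [neg_mul]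
  cont := by fun_prop
  K := ⟨θ, hθ⟩
  lip := by
    have hd : ∀ t : ℝ, HasDerivAt (fun u : ℝ => Real.cos (u * θ) • X.1 + Real.sin (u * θ) • e)
        ((-(Real.sin (t * θ) * θ)) • X.1 + (Real.cos (t * θ) * θ) • e) t := by
      intro t
      have h0 : HasDerivAt (fun t : ℝ => t * θ) θ t := by simpa using (hasDerivAt_id t).mul_const θ
      have h1 := h0.cos.smul_const X.1
      have h2 := h0.sin.smul_const e
      refine (h1.add h2).congr_deriv ?_
      rw [neg_mul]
    have hL : LipschitzWith ⟨θ, hθ⟩ (fun u : ℝ => Real.cos (u * θ) • X.1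
        + Real.sin (u * θ) • e) := by
      refine lipschitzWith_of_nnnorm_deriv_le (fun t => (hd t).differentiableAt) (fun t => ?_)
      rw [(hd t).deriv, ← NNReal.coe_le_coe, coe_nnnorm]
      show _ ≤ θ
      have h1 : ‖(-(Real.sin (t * θ) * θ)) • X.1 + (Real.cos (t * θ) * θ) • e‖ ^ 2 = θ ^ 2 := by
        rw [@norm_add_sq_real, norm_smul, norm_smul, inner_smul_left, inner_smul_right, hXe, he,
          sph_norm]
        simp only [Real.norm_eq_abs, mul_one, sq_abs, mul_zero, add_zero]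
        have := Real.cos_sq_add_sin_sq (t * θ)
        nlinarith
      exact le_of_eq ((pow_left_inj₀ (norm_nonneg _) hθ two_ne_zero).1 h1)
    intro s t
    exact hL s t

theorem great_norm (X : Sph n) (e : EuclideanSpace ℝ (Fin (n + 1))) (he : ‖e‖ = 1)
    (hXe : inner ℝ X.1 e = 0) (θ : ℝ) (hθ : 0 ≤ θ) (t : ℝ) :
    ‖(great X e he hXe θ hθ).γ' t‖ = θ := by
  have h1 : ‖(great X e he hXe θ hθ).γ' t‖ ^ 2 = θ ^ 2 := by
    show ‖(-(Real.sin (t * θ) * θ)) • X.1 + (Real.cos (t * θ) * θ) • e‖ ^ 2 = θ ^ 2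
    rw [@norm_add_sq_real, norm_smul, norm_smul, inner_smul_left, inner_smul_right, hXe, he,
      sph_norm]
    simp only [Real.norm_eq_abs, mul_one, sq_abs, mul_zero, add_zero]
    have := Real.cos_sq_add_sin_sq (t * θ)
    nlinarith
  exact (pow_left_inj₀ (norm_nonneg _) hθ two_ne_zero).1 h1

theorem great_c2 (X : Sph n) (e : EuclideanSpace ℝ (Fin (n + 1))) (he : ‖e‖ = 1)
    (hXe : inner ℝ X.1 e = 0) (θ : ℝ) (hθ : 0 ≤ θ) (t : ℝ) :
    c2 ((great X e he hXe θ hθ).γ t) X = 2 - 2 * Real.cos (t * θ) := by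
  rw [c2_inner]
  have : inner ℝ ((great X e he hXe θ hθ).γ t).1 X.1 = Real.cos (t * θ) := by
    show inner ℝ (Real.cos (t * θ) • X.1 + Real.sin (t * θ) • e) X.1 = _
    rw [inner_add_left, inner_smul_left, inner_smul_left, real_inner_comm, real_inner_self_eq_norm_sq,
      sph_norm, real_inner_comm, hXe]
    simp
  rw [this]

theorem exists_unit_orth (hn : 1 ≤ n) (X : Sph n) :
    ∃ e : EuclideanSpace ℝ (Fin (n + 1)), ‖e‖ = 1 ∧ inner ℝ X.1 e = 0 := by
  have h1 : (1 : ℕ) < Module.finrank ℝ (EuclideanSpace ℝ (Fin (n + 1))) := by simp; omega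
  have hX : X.1 ≠ 0 := by
    intro h; have := sph_norm X; rw [h] at this; simp at this
  have h2 := Submodule.finrank_add_finrank_orthogonal (Submodule.span ℝ {X.1})
  rw [finrank_span_singleton hX] at h2
  have h3 : 0 < Module.finrank ℝ (Submodule.span ℝ {X.1})ᗮ := by omega
  have : Nontrivial (Submodule.span ℝ {X.1})ᗮ := Module.finrank_pos_iff.1 h3
  obtain ⟨w, hw⟩ := exists_norm_eq (Submodule.span ℝ {X.1})ᗮ (zero_le_one' ℝ)
  refine ⟨w.1, by simpa using hw, ?_⟩
  exact (Submodule.mem_orthogonal_singleton_iff_inner_right.1 w.2)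

/-- every point is on a great circle arc from X -/
theorem great_exists (hn : 1 ≤ n) (X P : Sph n) :
    ∃ (e : EuclideanSpace ℝ (Fin (n + 1))) (he : ‖e‖ = 1) (hXe : inner ℝ X.1 e = 0) (θ : ℝ)
      (hθ : 0 ≤ θ), θ ≤ Real.pi ∧ (great X e he hXe θ hθ).γ 0 = X ∧
        (great X e he hXe θ hθ).γ 1 = P := by
  set c : ℝ := inner ℝ X.1 P.1 with hc
  have hc1 : |c| ≤ 1 := by
    have := abs_real_inner_le_norm X.1 P.1
    rwa [sph_norm, sph_norm, mul_one] at this
  obtain ⟨hcl, hcu⟩ := abs_le.1 hc1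
  set w : EuclideanSpace ℝ (Fin (n + 1)) := P.1 - c • X.1 with hw
  have hXw : inner ℝ X.1 w = 0 := by
    rw [hw, inner_sub_right, inner_smul_right, real_inner_self_eq_norm_sq, sph_norm, ← hc]
    ring
  have hwn : ‖w‖ ^ 2 = 1 - c ^ 2 := by
    rw [hw, @norm_sub_sq_real, inner_smul_right, norm_smul, sph_norm, sph_norm, real_inner_comm,
      ← hc, Real.norm_eq_abs, mul_one, sq_abs]
    ring
  have hsin : Real.sin (Real.arccos c) = ‖w‖ := by
    rw [Real.sin_arccos, ← hwn, Real.sqrt_sq (norm_nonneg _)]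
  obtain ⟨e, he, hXe, hwe⟩ : ∃ e : EuclideanSpace ℝ (Fin (n + 1)), ‖e‖ = 1 ∧
      inner ℝ X.1 e = 0 ∧ w = ‖w‖ • e := by
    by_cases h0 : w = 0
    · obtain ⟨e, he, hXe⟩ := exists_unit_orth hn X
      exact ⟨e, he, hXe, by rw [h0, norm_zero, zero_smul]⟩
    · have h1 : ‖w‖ ≠ 0 := norm_ne_zero_iff.2 h0
      refine ⟨‖w‖⁻¹ • w, ?_, ?_, ?_⟩
      · rw [norm_smul, norm_inv, norm_norm, inv_mul_cancel₀ h1]
      · rw [inner_smul_right, hXw, mul_zero]
      · rw [smul_smul, mul_inv_cancel₀ h1, one_smul]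
  refine ⟨e, he, hXe, Real.arccos c, Real.arccos_nonneg c, Real.arccos_le_pi c, ?_, ?_⟩
  · apply Subtype.ext
    show Real.cos (0 * Real.arccos c) • X.1 + Real.sin (0 * Real.arccos c) • e = X.1
    rw [zero_mul, Real.cos_zero, Real.sin_zero, one_smul, zero_smul, add_zero]
  · apply Subtype.ext
    show Real.cos (1 * Real.arccos c) • X.1 + Real.sin (1 * Real.arccos c) • e = P.1
    rw [one_mul, Real.cos_arccos hcl hcu, hsin, ← hwe, hw]
    abel

end

end Pool.Agent.Helper73.CF
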