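import Pool.Agent.Helper73.CF.Key

/-!
A pinched conformally flat metric cannot be touched from above by the model functions.
-/

open Filter Topology

namespace Pool.Agent.Helper73.CF

open Pool.Agent.QPinch

noncomputable section

variable {n : ℕ}

theorem rpow_deriv {q q' : ℝ → ℝ} {c δ : ℝ} (h1 : ∀ t, HasDerivAt q (q' t) t)
    (h2 : HasDerivAt q' c 0) (h0 : 0 < q 0) :
    ∃ f' : ℝ → ℝ, (∀ᶠ t in 𝓝 (0 : ℝ), HasDerivAt (fun t => q t ^ δ) (f' t) t) ∧
      f' 0 = δ * q 0 ^ δ * (q' 0 / q 0) ∧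
      HasDerivAt f' (δ * q 0 ^ δ * (c / q 0 - (1 - δ) * (q' 0 / q 0) ^ 2)) 0 := by
  have hne : q 0 ≠ 0 := h0.ne'
  refine ⟨fun t => q' t * δ * q t ^ (δ - 1), ?_, ?_, ?_⟩
  · have : ∀ᶠ t in 𝓝 (0 : ℝ), 0 < q t := (h1 0).continuousAt.eventually (lt_mem_nhds h0)
    filter_upwards [this] with t ht
    exact (h1 t).rpow_const (Or.inl ht.ne')
  · beta_reduce
    rw [Real.rpow_sub_one hne]
    field_simp
  · have a1 : HasDerivAt (fun t => q t ^ (δ - 1)) (q' 0 * (δ - 1) * q 0 ^ (δ - 1 - 1)) 0 :=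
      (h1 0).rpow_const (Or.inl hne)
    have a2 := (h2.mul_const δ).mul a1
    refine a2.congr_deriv ?_
    have e1 : q 0 ^ (δ - 1) = q 0 ^ δ / q 0 := Real.rpow_sub_one hne δ
    have e2 : q 0 ^ (δ - 1 - 1) = q 0 ^ δ / q 0 / q 0 := by
      rw [Real.rpow_sub_one hne, e1]
    rw [e1, e2]
    field_simp
    ring

/-- quadratic functions which vanish at one point of the sphere -/
structure NQ (n : ℕ) where
  a : ℝ
  b : Fin n → ℝ
  c : ℝ
  null : dt b b = a * c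

/-- value of the function -/
def NQ.f (Q : NQ n) (x : Fin n → ℝ) : ℝ := Q.a * dt x x + 2 * dt Q.b x + Q.c

/-- gradient -/
def NQ.g (Q : NQ n) (x : Fin n → ℝ) : Fin n → ℝ := fun i => 2 * (Q.a * x i + Q.b i)

theorem dt_comm (a b : Fin n → ℝ) : dt a b = dt b a :=
  Finset.sum_congr rfl (fun _ _ => mul_comm _ _)

theorem NQ.line (Q : NQ n) (p b : Fin n → ℝ) (hb : dt b b = 1) (t : ℝ) :
    Q.f (p + t • b) = Q.f p + dt b (Q.g p) * t + Q.a * t ^ 2 := by
  unfold NQ.f NQ.g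
  have e1 : dt (p + t • b) (p + t • b) = dt p p + 2 * t * dt p b + t ^ 2 * dt b b := by
    unfold dt
    rw [Finset.mul_sum, Finset.mul_sum, ← Finset.sum_add_distrib, ← Finset.sum_add_distrib]
    exact Finset.sum_congr rfl (fun i _ => by simp; ring)
  have e2 : dt Q.b (p + t • b) = dt Q.b p + t * dt Q.b b := by
    unfold dt
    rw [Finset.mul_sum, ← Finset.sum_add_distrib]
    exact Finset.sum_congr rfl (fun i _ => by simp; ring)
  have e3 : dt b (fun i => 2 * (Q.a * p i + Q.b i)) = 2 * Q.a * dt p b + 2 * dt Q.b b := by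
    unfold dt
    rw [Finset.mul_sum, Finset.mul_sum, ← Finset.sum_add_distrib]
    exact Finset.sum_congr rfl (fun i _ => by ring)
  rw [e1, e2, e3, hb]
  ring

theorem NQ.grad_sq (Q : NQ n) (p : Fin n → ℝ) : dt (Q.g p) (Q.g p) = 4 * Q.a * Q.f p := by
  unfold NQ.f NQ.g
  have e : dt (fun i => 2 * (Q.a * p i + Q.b i)) (fun i => 2 * (Q.a * p i + Q.b i))
      = 4 * Q.a ^ 2 * dt p p + 8 * Q.a * dt Q.b p + 4 * dt Q.b Q.b := by
    unfold dt
    rw [Finset.mul_sum, Finset.mul_sum, Finset.mul_sum, ← Finset.sum_add_distrib,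
      ← Finset.sum_add_distrib]
    exact Finset.sum_congr rfl (fun i _ => by ring)
  rw [e, Q.null]
  ring

theorem NQ.rpow_line (Q : NQ n) (p b : Fin n → ℝ) (hb : dt b b = 1) (hp : 0 < Q.f p) (δ : ℝ) :
    ∃ f' : ℝ → ℝ, (∀ᶠ t in 𝓝 (0 : ℝ), HasDerivAt (fun t => Q.f (p + t • b) ^ δ) (f' t) t) ∧
      f' 0 = δ * Q.f p ^ δ * (dt b (Q.g p) / Q.f p) ∧
      HasDerivAt f' (δ * Q.f p ^ δ * (2 * Q.a / Q.f p
        - (1 - δ) * (dt b (Q.g p) / Q.f p) ^ 2)) 0 := by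
  have h1 : ∀ t : ℝ, HasDerivAt (fun t => Q.f (p + t • b)) (dt b (Q.g p) + 2 * Q.a * t) t := by
    intro t
    have e : (fun t : ℝ => Q.f (p + t • b))
        = fun t => Q.f p + dt b (Q.g p) * t + Q.a * t ^ 2 := funext fun t => Q.line p b hb t
    rw [e]
    have a1 := ((hasDerivAt_id t).const_mul (dt b (Q.g p))).const_add (Q.f p)
    have a2 := ((hasDerivAt_id t).pow 2).const_mul Q.a
    refine (a1.add a2).congr_deriv ?_
    simp
    ring
  have h2 : HasDerivAt (fun t : ℝ => dt b (Q.g p) + 2 * Q.a * t) (2 * Q.a) 0 := by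
    simpa using ((hasDerivAt_id (0 : ℝ)).const_mul (2 * Q.a)).const_add (dt b (Q.g p))
  have h0 : Q.f (p + (0 : ℝ) • b) = Q.f p := by rw [zero_smul, add_zero]
  obtain ⟨f', a1, a2, a3⟩ := rpow_deriv (δ := δ) h1 h2 (by simpa [h0] using hp)
  refine ⟨f', a1, ?_, ?_⟩
  · rw [a2, h0]; simp
  · refine a3.congr_deriv ?_
    rw [h0]; simp

theorem v_rpow_line {v : (Fin n → ℝ) → ℝ} (hv : ContDiff ℝ 2 v) (p b : Fin n → ℝ)
    (hp : 0 < v p) (δ : ℝ) :
    ∃ f' : ℝ → ℝ, (∀ᶠ t in 𝓝 (0 : ℝ), HasDerivAt (fun t => v (p + t • b) ^ δ) (f' t) t) ∧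
      f' 0 = δ * v p ^ δ * (fderiv ℝ v p b / v p) ∧
      HasDerivAt f' (δ * v p ^ δ * (fderiv ℝ (fderiv ℝ v) p b b / v p
        - (1 - δ) * (fderiv ℝ v p b / v p) ^ 2)) 0 := by
  have h0 : p + (0 : ℝ) • b = p := by rw [zero_smul, add_zero]
  obtain ⟨f', a1, a2, a3⟩ := rpow_deriv (δ := δ) (line1 hv p b) (line2 hv p b)
    (by rw [h0]; exact hp)
  rw [h0] at a2 a3
  exact ⟨f', a1, a2, a3⟩

/-- first and second order conditions along a line at a touching point -/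
theorem touch_line {v : (Fin n → ℝ) → ℝ} (hv : ContDiff ℝ 2 v) (p b : Fin n → ℝ)
    (hb : dt b b = 1) (hp : 0 < v p) {δ μ : ℝ} (hδ : 0 < δ) (P Q : NQ n) (hP : 0 < P.f p)
    (hQ : 0 < Q.f p) (heq : v p ^ δ = μ * (P.f p ^ δ + Q.f p ^ δ))
    (hle : ∀ x, v x ^ δ ≤ μ * (P.f x ^ δ + Q.f x ^ δ)) :
    let s := P.f p ^ δ / (P.f p ^ δ + Q.f p ^ δ)
    let r := Q.f p ^ δ / (P.f p ^ δ + Q.f p ^ δ)
    fderiv ℝ v p b / v p = s * (dt b (P.g p) / P.f p) + r * (dt b (Q.g p) / Q.f p) ∧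
    fderiv ℝ (fderiv ℝ v) p b b / v p ≤ (1 - δ) * (fderiv ℝ v p b / v p) ^ 2
      + s * (2 * P.a / P.f p - (1 - δ) * (dt b (P.g p) / P.f p) ^ 2)
      + r * (2 * Q.a / Q.f p - (1 - δ) * (dt b (Q.g p) / Q.f p) ^ 2) := by
  intro s r
  obtain ⟨f, a1, a2, a3⟩ := v_rpow_line hv p b hp δ
  obtain ⟨fP, b1, b2, b3⟩ := P.rpow_line p b hb hP δ
  obtain ⟨fQ, c1, c2, c3⟩ := Q.rpow_line p b hb hQ δ
  have hA : 0 < P.f p ^ δ := Real.rpow_pos_of_pos hP δ
  have hB : 0 < Q.f p ^ δ := Real.rpow_pos_of_pos hQ δ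
  have hV : 0 < v p ^ δ := Real.rpow_pos_of_pos hp δ
  have h0 : p + (0 : ℝ) • b = p := by rw [zero_smul, add_zero]
  have e1 : ∀ᶠ t in 𝓝 (0 : ℝ), HasDerivAt
      (fun t => μ * (P.f (p + t • b) ^ δ + Q.f (p + t • b) ^ δ) - v (p + t • b) ^ δ)
      (μ * (fP t + fQ t) - f t) t := by
    filter_upwards [a1, b1, c1] with t ha hb hc
    exact ((hb.add hc).const_mul μ).sub ha
  have e2 := ((b3.add c3).const_mul μ).sub a3
  have hm : IsLocalMin
      (fun t : ℝ => μ * (P.f (p + t • b) ^ δ + Q.f (p + t • b) ^ δ) - v (p + t • b) ^ δ) 0 := by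
    refine Filter.Eventually.of_forall (fun t => ?_)
    beta_reduce
    rw [h0, heq, sub_self]
    have := hle (p + t • b)
    linarith
  obtain ⟨d1, d2⟩ := second_test e1 e2 hm
  rw [b2, c2, a2, heq] at d1
  rw [heq] at d2
  have hS : 0 < P.f p ^ δ + Q.f p ^ δ := by positivity
  have hμ : 0 < μ := by
    rw [heq] at hV
    exact (mul_pos_iff_of_pos_right hS).1 hV
  set A := P.f p ^ δ
  set B := Q.f p ^ δ
  have hs : s = A / (A + B) := rfl
  have hr : r = B / (A + B) := rfl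
  clear_value s r
  subst hs
  subst hr
  generalize hx : fderiv ℝ v p b / v p = X at *
  generalize hy : fderiv ℝ (fderiv ℝ v) p b b / v p = Y at *
  generalize hu : dt b (P.g p) / P.f p = U at *
  generalize hw : dt b (Q.g p) / Q.f p = W at *
  constructor
  · have : μ * δ * (A * U + B * W - (A + B) * X) = 0 := by linarith
    have h3 : A * U + B * W - (A + B) * X = 0 := by
      rcases mul_eq_zero.1 this with h | h
      · exact absurd h (mul_pos hμ hδ).ne'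
      · exact h
    field_simp
    linarith
  · have : 0 ≤ (μ * δ) * (A * (2 * P.a / P.f p - (1 - δ) * U ^ 2)
        + B * (2 * Q.a / Q.f p - (1 - δ) * W ^ 2) - (A + B) * (Y - (1 - δ) * X ^ 2)) := by
      linarith
    have h3 := nonneg_of_mul_nonneg_right this (mul_pos hμ hδ)
    generalize 2 * P.a / P.f p - (1 - δ) * U ^ 2 = Z1 at *
    generalize 2 * Q.a / Q.f p - (1 - δ) * W ^ 2 = Z2 at *
    have h4 : Y - (1 - δ) * X ^ 2 ≤ (A * Z1 + B * Z2) / (A + B) := by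
      rw [le_div_iff₀ hS]; linarith
    have h5 : (A * Z1 + B * Z2) / (A + B) = A / (A + B) * Z1 + B / (A + B) * Z2 := by
      ring
    linarith

/-- no touching from above -/
theorem no_touch {k : ℕ} {v : (Fin (k + 3) → ℝ) → ℝ} (hv : ContDiff ℝ 2 v)
    (pos : ∀ x, 0 < v x) (p : Fin (k + 3) → ℝ) {δ μ : ℝ} (hδ : 0 < δ) (hδ2 : δ ≤ 1 / 2)
    (hpin : PinchedAt δ (dg (fe v)) p) (P Q : NQ (k + 3)) (hP : 0 < P.f p)
    (hQ : 0 < Q.f p) (heq : v p ^ δ = μ * (P.f p ^ δ + Q.f p ^ δ))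
    (hle : ∀ x, v x ^ δ ≤ μ * (P.f x ^ δ + Q.f x ^ δ)) : False := by
  obtain ⟨F, hF⟩ := frame_exists (k + 2) (fun i => P.g p i / P.f p - Q.g p i / Q.f p)
  have hFeq : ∀ j : Fin (k + 2), dt (F.b j.succ) (P.g p) / P.f p
      = dt (F.b j.succ) (Q.g p) / Q.f p := by
    intro j
    have h1 := hF j
    have h2 : dt (F.b j.succ) (fun i => P.g p i / P.f p - Q.g p i / Q.f p)
        = dt (F.b j.succ) (P.g p) / P.f p - dt (F.b j.succ) (Q.g p) / Q.f p := by
      unfold dt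
      rw [Finset.sum_div, Finset.sum_div, ← Finset.sum_sub_distrib]
      exact Finset.sum_congr rfl (fun i _ => by ring)
    linarith
  have hA : 0 < P.f p ^ δ := Real.rpow_pos_of_pos hP δ
  have hB : 0 < Q.f p ^ δ := Real.rpow_pos_of_pos hQ δ
  have hS : 0 < P.f p ^ δ + Q.f p ^ δ := by positivity
  have T := fun i => touch_line hv p (F.b i) (by rw [F.orth, if_pos rfl]) (pos p) hδ P Q hP hQ
    heq hle
  have K := key hv pos p δ hpin F
  simp only at T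
  have hsr : P.f p ^ δ / (P.f p ^ δ + Q.f p ^ δ) + Q.f p ^ δ / (P.f p ^ δ + Q.f p ^ δ) = 1 := by
    field_simp
  have hs0 : 0 ≤ P.f p ^ δ / (P.f p ^ δ + Q.f p ^ δ) := by positivity
  generalize P.f p ^ δ / (P.f p ^ δ + Q.f p ^ δ) = s at *
  generalize Q.f p ^ δ / (P.f p ^ δ + Q.f p ^ δ) = r at *
  have hPsum : ∑ i, (dt (F.b i) (P.g p) / P.f p) ^ 2 = 2 * (2 * P.a / P.f p) := by
    have h1 := F.pars (P.g p)
    rw [P.grad_sq] at h1
    have : ∑ i, (dt (F.b i) (P.g p) / P.f p) ^ 2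
        = (∑ i, dt (F.b i) (P.g p) ^ 2) / P.f p ^ 2 := by
      rw [Finset.sum_div]; exact Finset.sum_congr rfl (fun i _ => by rw [div_pow])
    rw [this, h1]
    field_simp
    ring
  have hQsum : ∑ i, (dt (F.b i) (Q.g p) / Q.f p) ^ 2 = 2 * (2 * Q.a / Q.f p) := by
    have h1 := F.pars (Q.g p)
    rw [Q.grad_sq] at h1
    have : ∑ i, (dt (F.b i) (Q.g p) / Q.f p) ^ 2
        = (∑ i, dt (F.b i) (Q.g p) ^ 2) / Q.f p ^ 2 := by
      rw [Finset.sum_div]; exact Finset.sum_congr rfl (fun i _ => by rw [div_pow])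
    rw [this, h1]
    field_simp
    ring
  set X : Fin (k + 3) → ℝ := fun i => dt (F.b i) (P.g p) / P.f p with hX
  set Y : Fin (k + 3) → ℝ := fun i => dt (F.b i) (Q.g p) / Q.f p with hY
  set K1 := 2 * P.a / P.f p with hK1
  set K2 := 2 * Q.a / Q.f p with hK2
  set H : Fin (k + 3) → ℝ := fun i => fderiv ℝ (fderiv ℝ v) p (F.b i) (F.b i) with hH
  have T1 : ∀ i, fderiv ℝ v p (F.b i) = v p * (s * X i + r * Y i) := by
    intro i
    have := (T i).1
    rw [div_eq_iff (pos p).ne'] at this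
    rw [this]; ring
  have T2 : ∀ i, H i ≤ v p * ((1 - δ) * (s * X i + r * Y i) ^ 2
      + s * (K1 - (1 - δ) * X i ^ 2) + r * (K2 - (1 - δ) * Y i ^ 2)) := by
    intro i
    have := (T i).2
    rw [(T i).1, div_le_iff₀ (pos p)] at this
    calc H i ≤ _ := this
      _ = _ := by ring
  have hXY : ∀ j : Fin (k + 2), Y j.succ = X j.succ := fun j => (hFeq j).symm
  have T3 : ∀ j : Fin (k + 2), H j.succ ≤ v p * (s * K1 + r * K2) := by
    intro j
    have := T2 j.succ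
    rw [hXY j] at this
    refine this.trans (le_of_eq ?_)
    have hr : r = 1 - s := by linarith
    rw [hr]; ring
  have hH0 := T2 0
  rw [Fin.sum_univ_succ] at hPsum hQsum
  simp only [T1] at K
  rw [Fin.sum_univ_succ] at K
  have T4 : ∑ j : Fin (k + 2), H j.succ ≤ ((k : ℝ) + 2) * (v p * (s * K1 + r * K2)) := by
    refine (Finset.sum_le_sum (fun j _ => T3 j)).trans (le_of_eq ?_)
    rw [Finset.sum_const, Finset.card_univ, Fintype.card_fin, nsmul_eq_mul]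
    push_cast
    ring
  set E : ℝ := ∑ j : Fin (k + 2), X j.succ ^ 2 with hE
  have hYE : ∑ j : Fin (k + 2), Y j.succ ^ 2 = E := by
    rw [hE]; exact Finset.sum_congr rfl (fun j _ => by rw [hXY])
  have hKE : ∑ j : Fin (k + 2), (v p * (s * X j.succ + r * Y j.succ)) ^ 2 = v p ^ 2 * E := by
    rw [hE, Finset.mul_sum]
    refine Finset.sum_congr rfl (fun j _ => ?_)
    rw [hXY]
    have hr : r = 1 - s := by linarith
    rw [hr]; ring
  rw [hYE] at hQsum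
  rw [hKE] at K
  have hr : r = 1 - s := by linarith
  have k0 : (0 : ℝ) < (k : ℝ) + 2 := by positivity
  have v0 := pos p
  have B1 : ((k : ℝ) + 2) * v p * H 0 ≤ ((k : ℝ) + 2) * v p * (v p * ((1 - δ)
      * (s * X 0 + r * Y 0) ^ 2 + s * (K1 - (1 - δ) * X 0 ^ 2)
      + r * (K2 - (1 - δ) * Y 0 ^ 2))) :=
    mul_le_mul_of_nonneg_left hH0 (by positivity)
  have B2 : (1 - 2 * δ) * v p * ∑ j : Fin (k + 2), H j.succ
      ≤ (1 - 2 * δ) * v p * (((k : ℝ) + 2) * (v p * (s * K1 + r * K2))) :=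
    mul_le_mul_of_nonneg_left T4 (mul_nonneg (by linarith) v0.le)
  have B3 := K.trans_le (add_le_add B1 B2)
  have hk1 : K1 = (X 0 ^ 2 + E) / 2 := by linarith
  have hk2 : K2 = (Y 0 ^ 2 + E) / 2 := by linarith
  rw [hk1, hk2, hr] at B3
  have : ((k : ℝ) + 2) * (1 - δ) * ((v p * (s * X 0 + (1 - s) * Y 0)) ^ 2 + v p ^ 2 * E)
      = ((k : ℝ) + 2) * v p * (v p * ((1 - δ) * (s * X 0 + (1 - s) * Y 0) ^ 2
        + s * ((X 0 ^ 2 + E) / 2 - (1 - δ) * X 0 ^ 2)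
        + (1 - s) * ((Y 0 ^ 2 + E) / 2 - (1 - δ) * Y 0 ^ 2)))
        + (1 - 2 * δ) * v p * (((k : ℝ) + 2) * (v p * (s * ((X 0 ^ 2 + E) / 2)
        + (1 - s) * ((Y 0 ^ 2 + E) / 2)))) := by
    ring
  linarith

end

end Pool.Agent.Helper73.CF
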