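import Pool.Agent.Helper73.CF.Defs
import Pool.Agent.Helper73.CF.Touch

/-!
The stereographic charts.
-/

open Filter Topology

namespace Pool.Agent.Helper73.CF

open Pool.Agent.QPinch
open scoped Manifold ContDiff

noncomputable section

variable {n : ℕ}

theorem update_deriv (x : Fin n → ℝ) (i j : Fin n) :
    HasDerivAt (fun t : ℝ => Function.update x i t j) (if j = i then 1 else 0) (x i) := by
  by_cases h : j = i
  · subst h
    simp only [Function.update_self, if_true]
    exact hasDerivAt_id _
  · simp only [Function.update_of_ne h, if_neg h]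
    exact hasDerivAt_const _ _

theorem sq_update_deriv (x : Fin n → ℝ) (i : Fin n) :
    HasDerivAt (fun t : ℝ => sq (Function.update x i t)) (2 * x i) (x i) := by
  unfold sq
  have h : ∀ j ∈ (Finset.univ : Finset (Fin n)), HasDerivAt
      (fun t : ℝ => Function.update x i t j ^ 2) (2 * x j * (if j = i then 1 else 0)) (x i) := by
    intro j _
    have := (update_deriv x i j).pow 2
    refine this.congr_deriv ?_
    simp
  have h2 := HasDerivAt.fun_sum h
  refine h2.congr_deriv ?_
  rw [Finset.sum_eq_single i]
  · simp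
  · intro j _ hj; rw [if_neg hj, mul_zero]
  · intro hh; exact absurd (Finset.mem_univ _) hh

theorem q1_pos (x : Fin n → ℝ) : 0 < sq x + 1 := by
  have := sq_nonneg' x
  positivity

theorem pd_stereo_zero (s : Bool) (x : Fin n → ℝ) (i : Fin n) :
    pd i (fun y => stereo s y 0) x = sg s * (4 * x i) / (sq x + 1) ^ 2 := by
  have h1 := sq_update_deriv x i
  have h2 := ((h1.sub_const 1).const_mul (sg s)).div (h1.add_const 1)
    (by rw [Function.update_eq_self]; exact (q1_pos x).ne')
  have h3 : pd i (fun y => stereo s y 0) x = _ := h2.deriv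
  rw [h3, Function.update_eq_self]
  congr 1
  ring

theorem pd_stereo_succ (s : Bool) (x : Fin n → ℝ) (i k : Fin n) :
    pd i (fun y => stereo s y k.succ) x
      = ((if k = i then 2 * (sq x + 1) else 0) - 4 * x k * x i) / (sq x + 1) ^ 2 := by
  have h1 := sq_update_deriv x i
  have h2 := ((update_deriv x i k).const_mul 2).div (h1.add_const 1)
    (by rw [Function.update_eq_self]; exact (q1_pos x).ne')
  have h3 : pd i (fun y => stereo s y k.succ) x = _ := h2.deriv
  rw [h3]
  simp only [Function.update_eq_self]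
  congr 1
  split_ifs <;> ring

theorem sum_pd (s : Bool) (x : Fin n → ℝ) (i j : Fin n) :
    ∑ k, pd i (fun y => stereo s y k) x * pd j (fun y => stereo s y k) x
      = if i = j then 4 / (sq x + 1) ^ 2 else 0 := by
  rw [Fin.sum_univ_succ, pd_stereo_zero, pd_stereo_zero]
  simp only [pd_stereo_succ]
  have q := (q1_pos x).ne'
  have e : ∀ k : Fin n, ((if k = i then 2 * (sq x + 1) else 0) - 4 * x k * x i) / (sq x + 1) ^ 2
      * (((if k = j then 2 * (sq x + 1) else 0) - 4 * x k * x j) / (sq x + 1) ^ 2)
      = (if k = i then (if k = j then 4 / (sq x + 1) ^ 2 else 0) else 0)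
        - (if k = i then 8 * x i * x j / (sq x + 1) ^ 3 else 0)
        - (if k = j then 8 * x i * x j / (sq x + 1) ^ 3 else 0)
        + 16 * x i * x j / (sq x + 1) ^ 4 * x k ^ 2 := by
    intro k
    by_cases h1 : k = i
    · subst h1
      by_cases h2 : k = j
      · subst h2
        simp only [if_true]
        field_simp
        ring
      · simp only [if_true, if_neg h2]
        field_simp
        ring
    · by_cases h2 : k = j
      · subst h2
        simp only [if_true, if_neg h1]
        field_simp
        ring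
      · simp only [if_neg h1, if_neg h2]
        field_simp
        ring
  rw [Finset.sum_congr rfl (fun k _ => e k)]
  rw [Finset.sum_add_distrib, Finset.sum_sub_distrib, Finset.sum_sub_distrib, ← Finset.mul_sum]
  have e4 : ∑ k, x k ^ 2 = sq x := rfl
  rw [e4]
  simp only [Finset.sum_ite_eq', Finset.mem_univ, if_true]
  have hs : sg s * (4 * x i) / (sq x + 1) ^ 2 * (sg s * (4 * x j) / (sq x + 1) ^ 2)
      = 16 * x i * x j / (sq x + 1) ^ 4 := by
    have := sg_sq s
    have e5 : sg s * (4 * x i) / (sq x + 1) ^ 2 * (sg s * (4 * x j) / (sq x + 1) ^ 2)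
      = sg s ^ 2 * (16 * x i * x j / (sq x + 1) ^ 4) := by
      field_simp
      ring
    rw [e5, this, one_mul]
  rw [hs]
  by_cases h : i = j
  · subst h
    simp only [if_true]
    field_simp
    ring
  · simp only [if_neg h]
    field_simp
    ring

variable (M : ConfMetric n)

/-- conformal factor in the chart: the metric is v^-2 |dx|^2 -/
def ConfMetric.v (s : Bool) (x : Fin n → ℝ) : ℝ := (sq x + 1) / 2 * M.h (chart s x)

theorem ConfMetric.v_pos (s : Bool) (x : Fin n → ℝ) : 0 < M.v s x := by
  have := q1_pos x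
  have := M.pos (chart s x)
  unfold ConfMetric.v
  positivity

theorem ConfMetric.metric_eq (s : Bool) : M.metric s = dg (fe (M.v s)) := by
  funext x i
  ext j
  unfold ConfMetric.metric
  rw [sum_pd]
  have q := (q1_pos x).ne'
  have hh := (M.pos (chart s x)).ne'
  by_cases h : i = j
  · subst h
    rw [dg_eq, if_pos rfl]
    unfold fe ConfMetric.v
    field_simp
    ring
  · rw [dg_ne h, if_neg h, zero_div]

theorem contDiff_sq {m : ℕ∞ω} : ContDiff ℝ m (sq : (Fin n → ℝ) → ℝ) := by
  unfold sq
  exact ContDiff.sum (fun i _ => (contDiff_apply ℝ ℝ i).pow 2)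

theorem contDiff_stereo {m : ℕ∞ω} (s : Bool) :
    ContDiff ℝ m (stereo s : (Fin n → ℝ) → EuclideanSpace ℝ (Fin (n + 1))) := by
  rw [contDiff_euclidean]
  intro i
  refine Fin.cases ?_ ?_ i
  · show ContDiff ℝ m (fun x : Fin n → ℝ => sg s * (sq x - 1) / (sq x + 1))
    exact (contDiff_const.mul (contDiff_sq.sub contDiff_const)).div
      (contDiff_sq.add contDiff_const) (fun x => (q1_pos x).ne')
  · intro k
    show ContDiff ℝ m (fun x : Fin n → ℝ => 2 * x k / (sq x + 1))
    exact (contDiff_const.mul (contDiff_apply ℝ ℝ k)).div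
      (contDiff_sq.add contDiff_const) (fun x => (q1_pos x).ne')

theorem ConfMetric.contDiff_v (s : Bool) : ContDiff ℝ 2 (M.v s) := by
  have h1 : ContMDiff 𝓘(ℝ, Fin n → ℝ) (𝓡 n) 2 (chart s : (Fin n → ℝ) → Sph n) := by
    have := Fact.mk (@finrank_euclideanSpace_fin ℝ _ (n + 1))
    exact ContMDiff.codRestrict_sphere (contDiff_stereo s).contMDiff _
  have h2 : ContMDiff 𝓘(ℝ, Fin n → ℝ) 𝓘(ℝ, ℝ) 2 (fun x => M.h (chart s x)) :=
    M.smooth.comp h1
  have h3 : ContDiff ℝ 2 (fun x => M.h (chart s x)) := h2.contDiff
  unfold ConfMetric.v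
  exact ((contDiff_sq.add contDiff_const).div_const 2).mul h3

theorem ConfMetric.continuous_h : Continuous M.h := M.smooth.continuous

end

end Pool.Agent.Helper73.CF
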