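import Pool.Agent.QPinch.Diag

/-!
Curvature of the conformally flat metrics v^-2 |dx|^2 on coordinate space.
-/

namespace Pool.Agent.Helper73.CF

open Pool.Agent.QPinch

noncomputable section

variable {n : ℕ}

/-- partial derivative as a Frechet derivative -/
theorem pd_eq {φ : (Fin n → ℝ) → ℝ} {x : Fin n → ℝ} (h : DifferentiableAt ℝ φ x) (i : Fin n) :
    pd i φ x = fderiv ℝ φ x (Pi.single i 1) := by
  unfold pd
  have h1 : HasDerivAt (fun t : ℝ => Function.update x i t) (Pi.single i (1 : ℝ)) (x i) :=
    hasDerivAt_update x i (x i)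
  have h2 : HasFDerivAt φ (fderiv ℝ φ x) (Function.update x i (x i)) := by
    rw [Function.update_eq_self]; exact h.hasFDerivAt
  exact (h2.comp_hasDerivAt (x i) h1).deriv

/-- `HasDerivAt` form along a coordinate line -/
theorem hasDerivAt_pd {φ : (Fin n → ℝ) → ℝ} {x : Fin n → ℝ} (h : DifferentiableAt ℝ φ x)
    (i : Fin n) : HasDerivAt (fun t : ℝ => φ (Function.update x i t)) (pd i φ x) (x i) := by
  have h1 : HasDerivAt (fun t : ℝ => Function.update x i t) (Pi.single i (1 : ℝ)) (x i) :=
    hasDerivAt_update x i (x i)
  have h2 : HasFDerivAt φ (fderiv ℝ φ x) (Function.update x i (x i)) := by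
    rw [Function.update_eq_self]; exact h.hasFDerivAt
  rw [pd_eq h]
  exact h2.comp_hasDerivAt (x i) h1

/-- conformally flat metric -/
def fe (v : (Fin n → ℝ) → ℝ) (y : Fin n → ℝ) : Fin n → ℝ := fun _ => ((v y)⁻¹) ^ 2

/-- logarithmic derivative -/
def lp (v : (Fin n → ℝ) → ℝ) (i : Fin n) (y : Fin n → ℝ) : ℝ := pd i v y / v y

theorem pd_fe {v : (Fin n → ℝ) → ℝ} {x : Fin n → ℝ} (h : DifferentiableAt ℝ v x) (hv : 0 < v x)
    (i j : Fin n) : pd i (fun y => fe v y j) x = - 2 * (v x)⁻¹ ^ 2 * lp v i x := by
  have h1 := hasDerivAt_pd h i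
  have h2 := (h1.inv (by rw [Function.update_eq_self]; exact hv.ne')).pow 2
  have h3 : pd i (fun y => fe v y j) x = _ := h2.deriv
  rw [h3]
  simp only [Function.update_eq_self, Pi.inv_apply]
  unfold lp
  have := hv.ne'
  push_cast
  field_simp

theorem christoffel_flat {v : (Fin n → ℝ) → ℝ} {x : Fin n → ℝ} (h : DifferentiableAt ℝ v x)
    (hv : 0 < v x) (k i j : Fin n) :
    christoffel (dg (fe v)) k i j x = (if i = j then lp v k x else 0)
      - (if j = k then lp v i x else 0) - (if i = k then lp v j x else 0) := by
  rw [christoffel_diag (fun i => by unfold fe; positivity)]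
  simp only [pd_fe h hv]
  have h2 : fe v x k = (v x)⁻¹ ^ 2 := rfl
  rw [h2]
  have := hv.ne'
  split_ifs <;> field_simp <;> ring

/-- second derivatives divided by v -/
def hs (v : (Fin n → ℝ) → ℝ) (i j : Fin n) (x : Fin n → ℝ) : ℝ := pd i (pd j v) x / v x

theorem hasDerivAt_lp {v : (Fin n → ℝ) → ℝ} {x : Fin n → ℝ} (h : DifferentiableAt ℝ v x)
    (hv : 0 < v x) (j : Fin n) (h2 : DifferentiableAt ℝ (pd j v) x) (i : Fin n) :
    HasDerivAt (fun t : ℝ => lp v j (Function.update x i t)) (hs v i j x - lp v i x * lp v j x)
      (x i) := by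
  have e1 := hasDerivAt_pd h i
  have e2 := hasDerivAt_pd h2 i
  have e3 := e2.div e1 (by rw [Function.update_eq_self]; exact hv.ne')
  refine e3.congr_deriv ?_
  simp only [Function.update_eq_self]
  unfold hs lp
  have := hv.ne'
  field_simp

theorem pd_christoffel_flat {v : (Fin n → ℝ) → ℝ} (h : Differentiable ℝ v) (hv : ∀ x, 0 < v x)
    (h2 : ∀ j, Differentiable ℝ (pd j v)) (x : Fin n → ℝ) (a k i j : Fin n) :
    pd a (christoffel (dg (fe v)) k i j) x
      = (if i = j then hs v a k x - lp v a x * lp v k x else 0)
      - (if j = k then hs v a i x - lp v a x * lp v i x else 0)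
      - (if i = k then hs v a j x - lp v a x * lp v j x else 0) := by
  have e0 : christoffel (dg (fe v)) k i j = fun y => (if i = j then lp v k y else 0)
      - (if j = k then lp v i y else 0) - (if i = k then lp v j y else 0) := by
    ext y; exact christoffel_flat (h y) (hv y) k i j
  rw [e0]
  have key : ∀ (c : Prop) [Decidable c] (b : Fin n), HasDerivAt (fun t : ℝ =>
      (if c then lp v b (Function.update x a t) else 0))
      (if c then hs v a b x - lp v a x * lp v b x else 0) (x a) := by
    intro c _ b
    by_cases hc : c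
    · simp only [if_pos hc]; exact hasDerivAt_lp (h x) (hv x) b (h2 b x) a
    · simp only [if_neg hc]; exact hasDerivAt_const _ _
  exact (((key (i = j) k).sub (key (j = k) i)).sub (key (i = k) j)).deriv

theorem sum_gamma (P : Fin n → ℝ) (l i j k : Fin n) :
    ∑ m, ((if i = m then P l else 0) - (if m = l then P i else 0) - (if i = l then P m else 0)) *
      ((if j = k then P m else 0) - (if k = m then P j else 0) - (if j = m then P k else 0))
    = (if k = l then P i * P j else 0) + (if j = l then P i * P k else 0)
      + 2 * (if i = l then P j * P k else 0)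
      - (if i = l then (if j = k then ∑ m, P m ^ 2 else 0) else 0)
      - (if i = k then P j * P l else 0) - (if i = j then P k * P l else 0) := by
  have a1 : ∀ (c : Prop) [Decidable c] (q : ℝ) (a : Fin n) , ∑ m, (if a = m then q else 0) *
      (if c then P m else 0) = if c then q * P a else 0 := by
    intro c _ q a
    rw [Finset.sum_eq_single a]
    · rw [if_pos rfl]; split_ifs <;> simp
    · intro b _ hb; rw [if_neg (Ne.symm hb), zero_mul]
    · intro h; exact absurd (Finset.mem_univ _) h
  have a2 : ∀ (q q' : ℝ) (a b : Fin n), ∑ m, (if a = m then q else 0) *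
      (if b = m then q' else 0) = if a = b then q * q' else 0 := by
    intro q q' a b
    rw [Finset.sum_eq_single a]
    · by_cases hab : a = b
      · subst hab; simp
      · rw [if_neg hab, if_neg (Ne.symm hab), mul_zero]
    · intro b _ hb; rw [if_neg (Ne.symm hb), zero_mul]
    · intro h; exact absurd (Finset.mem_univ _) h
  have a3 : ∀ (c d : Prop) [Decidable c] [Decidable d], ∑ m, (if c then P m else 0) *
      (if d then P m else 0) = if c then (if d then ∑ m, P m ^ 2 else 0) else 0 := by
    intro c d _ _
    by_cases hc : c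
    · by_cases hd : d
      · simp only [if_pos hc, if_pos hd]
        exact Finset.sum_congr rfl (fun m _ => by ring)
      · simp [if_neg hd]
    · simp [if_neg hc]
  have e : ∀ m, ((if i = m then P l else 0) - (if m = l then P i else 0) - (if i = l then P m else 0)) *
      ((if j = k then P m else 0) - (if k = m then P j else 0) - (if j = m then P k else 0))
      = (if i = m then P l else 0) * (if j = k then P m else 0)
        - (if i = m then P l else 0) * (if k = m then P j else 0)
        - (if i = m then P l else 0) * (if j = m then P k else 0)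
        - (if l = m then P i else 0) * (if j = k then P m else 0)
        + (if l = m then P i else 0) * (if k = m then P j else 0)
        + (if l = m then P i else 0) * (if j = m then P k else 0)
        - (if i = l then P m else 0) * (if j = k then P m else 0)
        + (if k = m then P j else 0) * (if i = l then P m else 0)
        + (if j = m then P k else 0) * (if i = l then P m else 0) := by
    intro m
    have : (if m = l then P i else 0) = (if l = m then P i else 0) := by
      by_cases h : m = l
      · rw [if_pos h, if_pos h.symm]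
      · rw [if_neg h, if_neg (Ne.symm h)]
    rw [this]
    ring
  rw [Finset.sum_congr rfl (fun m _ => e m)]
  simp only [Finset.sum_add_distrib, Finset.sum_sub_distrib, a1, a2, a3]
  rw [show (if l = k then P i * P j else 0) = (if k = l then P i * P j else 0) from by
    by_cases h : l = k
    · rw [if_pos h, if_pos h.symm]
    · rw [if_neg h, if_neg (Ne.symm h)]]
  rw [show (if l = j then P i * P k else 0) = (if j = l then P i * P k else 0) from by
    by_cases h : l = j
    · rw [if_pos h, if_pos h.symm]
    · rw [if_neg h, if_neg (Ne.symm h)]]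
  have h1 : (if j = k then P l * P i else 0) = (if j = k then P i * P l else 0) := by
    rw [mul_comm]
  have h2 : (if i = l then P j * P k else 0) = (if i = l then P k * P j else 0) := by
    rw [mul_comm]
  have h3 : (if i = k then P l * P j else 0) = (if i = k then P j * P l else 0) := by
    rw [mul_comm]
  have h4 : (if i = j then P l * P k else 0) = (if i = j then P k * P l else 0) := by
    rw [mul_comm]
  rw [h1, h2, h3, h4]
  ring

/-- the curvature tensor of a conformally flat metric -/
theorem riemann_flat {v : (Fin n → ℝ) → ℝ} (h : Differentiable ℝ v) (hv : ∀ x, 0 < v x)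
    (h2 : ∀ j, Differentiable ℝ (pd j v)) (x : Fin n → ℝ)
    (hsym : ∀ i j, hs v i j x = hs v j i x) (l i j k : Fin n) :
    riemann (dg (fe v)) l i j k x
      = (if j = k then hs v i l x else 0) + (if i = l then hs v j k x else 0)
        - (if j = l then hs v i k x else 0) - (if i = k then hs v j l x else 0)
        - ((if i = l then (if j = k then ∑ m, lp v m x ^ 2 else 0) else 0)
          - (if j = l then (if i = k then ∑ m, lp v m x ^ 2 else 0) else 0)) := by
  unfold riemann
  rw [pd_christoffel_flat h hv h2, pd_christoffel_flat h hv h2]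
  simp only [christoffel_flat (h x) (hv x)]
  rw [Finset.sum_sub_distrib]
  have g1 := sum_gamma (fun m => lp v m x) l i j k
  have g2 := sum_gamma (fun m => lp v m x) l j i k
  beta_reduce at g1 g2
  rw [g1, g2]
  have s1 : ∀ (c : Prop) [Decidable c] (a b : ℝ), (if c then a - b else 0)
      = (if c then a else 0) - (if c then b else 0) := by
    intro c _ a b; split_ifs <;> simp
  have s2 : (if j = i then lp v k x * lp v l x else 0) = (if i = j then lp v k x * lp v l x else 0) := by
    by_cases h : i = j
    · rw [if_pos h, if_pos h.symm]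
    · rw [if_neg h, if_neg (Ne.symm h)]
  have s3 : (if k = l then lp v j x * lp v i x else 0) = (if k = l then lp v i x * lp v j x else 0) := by
    rw [mul_comm]
  have s4 : (if k = l then hs v j i x else 0) = (if k = l then hs v i j x else 0) := by
    rw [hsym]
  have s5 : (if j = k then lp v i x * lp v l x else 0) = (if j = k then lp v i x * lp v l x else 0) := rfl
  simp only [s1, s2, s3, s4]
  ring

/-- bilinear form with coefficients A -/
def bil (A : Fin n → Fin n → ℝ) (a b : Fin n → ℝ) : ℝ := ∑ i, ∑ j, A i j * a i * b j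

/-- dot product -/
def dt (a b : Fin n → ℝ) : ℝ := ∑ i, a i * b i

theorem t_jk (A : Fin n → Fin n → ℝ) (u w : Fin n → ℝ) :
    ∑ i, ∑ j, ∑ k, ∑ l, (if j = k then A i l else 0) * u i * w j * w k * u l
      = dt w w * bil A u u := by
  have e : ∀ i j, ∑ k, ∑ l, (if j = k then A i l else 0) * u i * w j * w k * u l
      = (w j * w j) * ∑ l, A i l * u i * u l := by
    intro i j
    rw [Finset.sum_eq_single j]
    · rw [Finset.mul_sum]
      exact Finset.sum_congr rfl (fun l _ => by rw [if_pos rfl]; ring)
    · intro k _ hk
      exact Finset.sum_eq_zero (fun l _ => by rw [if_neg (Ne.symm hk)]; ring)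
    · intro h; exact absurd (Finset.mem_univ _) h
  simp only [e, ← Finset.sum_mul]
  unfold dt bil
  rw [Finset.mul_sum]

theorem t_il (A : Fin n → Fin n → ℝ) (u w : Fin n → ℝ) :
    ∑ i, ∑ j, ∑ k, ∑ l, (if i = l then A j k else 0) * u i * w j * w k * u l
      = dt u u * bil A w w := by
  have e : ∀ i j k, ∑ l, (if i = l then A j k else 0) * u i * w j * w k * u l
      = (u i * u i) * (A j k * w j * w k) := by
    intro i j k
    rw [Finset.sum_eq_single i]
    · rw [if_pos rfl]; ring
    · intro l _ hl
      rw [if_neg (Ne.symm hl)]; ring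
    · intro h; exact absurd (Finset.mem_univ _) h
  simp only [e, ← Finset.mul_sum]
  unfold dt bil
  rw [Finset.sum_mul]

theorem t_jl (A : Fin n → Fin n → ℝ) (u w : Fin n → ℝ) :
    ∑ i, ∑ j, ∑ k, ∑ l, (if j = l then A i k else 0) * u i * w j * w k * u l
      = dt w u * bil A u w := by
  have e : ∀ i j k, ∑ l, (if j = l then A i k else 0) * u i * w j * w k * u l
      = (w j * u j) * (A i k * u i * w k) := by
    intro i j k
    rw [Finset.sum_eq_single j]
    · rw [if_pos rfl]; ring
    · intro l _ hl
      rw [if_neg (Ne.symm hl)]; ring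
    · intro h; exact absurd (Finset.mem_univ _) h
  simp only [e, ← Finset.mul_sum, ← Finset.sum_mul]
  unfold dt bil
  rfl

theorem t_ik (A : Fin n → Fin n → ℝ) (u w : Fin n → ℝ) :
    ∑ i, ∑ j, ∑ k, ∑ l, (if i = k then A j l else 0) * u i * w j * w k * u l
      = dt u w * bil A w u := by
  have e : ∀ i j, ∑ k, ∑ l, (if i = k then A j l else 0) * u i * w j * w k * u l
      = (u i * w i) * ∑ l, A j l * w j * u l := by
    intro i j
    rw [Finset.sum_eq_single i]
    · rw [Finset.mul_sum]
      exact Finset.sum_congr rfl (fun l _ => by rw [if_pos rfl]; ring)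
    · intro k _ hk
      exact Finset.sum_eq_zero (fun l _ => by rw [if_neg (Ne.symm hk)]; ring)
    · intro h; exact absurd (Finset.mem_univ _) h
  simp only [e, ← Finset.mul_sum]
  unfold dt bil
  rw [Finset.sum_mul]

theorem bil_delta (q : ℝ) (a b : Fin n → ℝ) :
    bil (fun i j => if i = j then q else 0) a b = q * dt a b := by
  unfold bil dt
  rw [Finset.mul_sum]
  refine Finset.sum_congr rfl (fun i _ => ?_)
  beta_reduce
  rw [Finset.sum_eq_single i]
  · rw [if_pos rfl]; ring
  · intro l _ hl
    rw [if_neg (Ne.symm hl)]; ring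
  · intro h; exact absurd (Finset.mem_univ _) h

theorem ip_flat (v : (Fin n → ℝ) → ℝ) (x a b : Fin n → ℝ) :
    ip (dg (fe v)) x a b = (v x)⁻¹ ^ 2 * dt a b := by
  unfold ip dt
  rw [Finset.mul_sum]
  refine Finset.sum_congr rfl (fun i _ => ?_)
  rw [Finset.sum_eq_single i]
  · rw [dg_eq]; unfold fe; ring
  · intro l _ hl
    rw [dg_ne (Ne.symm hl)]; ring
  · intro h; exact absurd (Finset.mem_univ _) h

theorem curv_flat {v : (Fin n → ℝ) → ℝ} (h : Differentiable ℝ v) (hv : ∀ x, 0 < v x)
    (h2 : ∀ j, Differentiable ℝ (pd j v)) (x : Fin n → ℝ)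
    (hsym : ∀ i j, hs v i j x = hs v j i x) (u w : Fin n → ℝ) :
    curv (dg (fe v)) x u w = (v x)⁻¹ ^ 2 * (dt w w * bil (fun i j => hs v i j x) u u
      + dt u u * bil (fun i j => hs v i j x) w w - dt w u * bil (fun i j => hs v i j x) u w
      - dt u w * bil (fun i j => hs v i j x) w u
      - (∑ m, lp v m x ^ 2) * (dt u u * dt w w - dt u w * dt w u)) := by
  have e1 : ∀ i j k l, ∑ m, dg (fe v) x m l * riemann (dg (fe v)) l i j k x * u i * w j * w k * u m
      = (v x)⁻¹ ^ 2 * (riemann (dg (fe v)) l i j k x * u i * w j * w k * u l) := by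
    intro i j k l
    rw [Finset.sum_eq_single l]
    · rw [dg_eq]; unfold fe; ring
    · intro m _ hm
      rw [dg_ne hm]; ring
    · intro h; exact absurd (Finset.mem_univ _) h
  have e3 : curv (dg (fe v)) x u w = ∑ i, ∑ j, ∑ k, ∑ l,
      (v x)⁻¹ ^ 2 * (riemann (dg (fe v)) l i j k x * u i * w j * w k * u l) :=
    Finset.sum_congr rfl (fun i _ => Finset.sum_congr rfl (fun j _ =>
      Finset.sum_congr rfl (fun k _ => Finset.sum_congr rfl (fun l _ => e1 i j k l))))
  rw [e3]
  simp only [← Finset.mul_sum, riemann_flat h hv h2 x hsym]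
  congr 1
  have e2 : ∀ i j k l, ((if j = k then hs v i l x else 0) + (if i = l then hs v j k x else 0)
        - (if j = l then hs v i k x else 0) - (if i = k then hs v j l x else 0)
        - ((if i = l then (if j = k then ∑ m, lp v m x ^ 2 else 0) else 0)
          - (if j = l then (if i = k then ∑ m, lp v m x ^ 2 else 0) else 0))) * u i * w j * w k * u l
      = (if j = k then (fun i l => hs v i l x) i l else 0) * u i * w j * w k * u l
        + (if i = l then (fun i l => hs v i l x) j k else 0) * u i * w j * w k * u l
        - (if j = l then (fun i l => hs v i l x) i k else 0) * u i * w j * w k * u l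
        - (if i = k then (fun i l => hs v i l x) j l else 0) * u i * w j * w k * u l
        - (if i = l then (fun j k => if j = k then ∑ m, lp v m x ^ 2 else 0) j k else 0)
          * u i * w j * w k * u l
        + (if j = l then (fun i k => if i = k then ∑ m, lp v m x ^ 2 else 0) i k else 0)
          * u i * w j * w k * u l := by
    intro i j k l
    beta_reduce
    ring
  simp only [e2]
  simp only [Finset.sum_add_distrib, Finset.sum_sub_distrib]
  rw [t_jk (fun i l => hs v i l x), t_il (fun i l => hs v i l x), t_jl (fun i l => hs v i l x),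
    t_ik (fun i l => hs v i l x), t_il (fun j k => if j = k then ∑ m, lp v m x ^ 2 else 0),
    t_jl (fun i k => if i = k then ∑ m, lp v m x ^ 2 else 0), bil_delta, bil_delta]
  ring

/-- sectional curvature of a conformally flat metric, for an orthonormal pair of coordinate
vectors -/
theorem sec_flat {v : (Fin n → ℝ) → ℝ} (h : Differentiable ℝ v) (hv : ∀ x, 0 < v x)
    (h2 : ∀ j, Differentiable ℝ (pd j v)) (x : Fin n → ℝ)
    (hsym : ∀ i j, pd i (pd j v) x = pd j (pd i v) x) (u w : Fin n → ℝ) (hu : dt u u = 1)
    (hw : dt w w = 1) (huw : dt u w = 0) :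
    sec (dg (fe v)) x u w = v x * (bil (fun i j => pd i (pd j v) x) u u
      + bil (fun i j => pd i (pd j v) x) w w) - ∑ i, pd i v x ^ 2 := by
  have hwu : dt w u = 0 := by
    rw [← huw]; unfold dt; exact Finset.sum_congr rfl (fun i _ => mul_comm _ _)
  unfold sec
  rw [curv_flat h hv h2 x (fun i j => by unfold hs; rw [hsym]), ip_flat, ip_flat, ip_flat, hu, hw,
    huw, hwu]
  have hb : ∀ a : Fin n → ℝ, bil (fun i j => hs v i j x) a a
      = (v x)⁻¹ * bil (fun i j => pd i (pd j v) x) a a := by
    intro a
    unfold bil hs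
    rw [Finset.mul_sum]
    refine Finset.sum_congr rfl (fun i _ => ?_)
    rw [Finset.mul_sum]
    refine Finset.sum_congr rfl (fun j _ => ?_)
    beta_reduce
    rw [div_eq_mul_inv]; ring
  have hl : ∑ m, lp v m x ^ 2 = (v x)⁻¹ ^ 2 * ∑ i, pd i v x ^ 2 := by
    rw [Finset.mul_sum]
    refine Finset.sum_congr rfl (fun i _ => ?_)
    unfold lp
    rw [div_eq_mul_inv]; ring
  rw [hb, hb, hl]
  have := (hv x).ne'
  field_simp
  ring

end

end Pool.Agent.Helper73.CF
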