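import Pool.Agent.QPinch.Defs

/-!
Riemannian metrics on the n-sphere which are conformal to the round metric.
-/

namespace Pool.Agent.Helper73.CF

open MeasureTheory Pool.Agent.QPinch
open scoped Manifold ContDiff NNReal

noncomputable section

/-- the unit sphere S^n of R^(n+1) -/
abbrev Sph (n : ℕ) : Type := Metric.sphere (0 : EuclideanSpace ℝ (Fin (n + 1))) 1

/-- sum of the squares of the coordinates -/
def sq {n : ℕ} (x : Fin n → ℝ) : ℝ := ∑ i, x i ^ 2

/-- the sign +1 or -1 -/
def sg (s : Bool) : ℝ := if s then 1 else -1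

/-- inverse of the stereographic projection from the point (s, 0, ..., 0), s = 1 or s = -1:
x is sent to (s (|x|^2 - 1), 2 x) / (|x|^2 + 1) -/
def stereo {n : ℕ} (s : Bool) (x : Fin n → ℝ) : EuclideanSpace ℝ (Fin (n + 1)) :=
  WithLp.toLp 2 (Fin.cons (sg s * (sq x - 1) / (sq x + 1)) fun i => 2 * x i / (sq x + 1))

theorem sg_sq (s : Bool) : sg s ^ 2 = 1 := by
  unfold sg; split_ifs <;> norm_num

theorem sq_nonneg' {n : ℕ} (x : Fin n → ℝ) : 0 ≤ sq x :=
  Finset.sum_nonneg fun i _ => sq_nonneg (x i)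

theorem norm_stereo {n : ℕ} (s : Bool) (x : Fin n → ℝ) : ‖stereo s x‖ = 1 := by
  have h0 : sq x + 1 ≠ 0 := by have := sq_nonneg' x; positivity
  have h1 : ‖stereo s x‖ ^ 2 = 1 := by
    rw [EuclideanSpace.norm_sq_eq, Fin.sum_univ_succ]
    have e1 : ‖(stereo s x) 0‖ ^ 2 = (sq x - 1) ^ 2 / (sq x + 1) ^ 2 := by
      show ‖sg s * (sq x - 1) / (sq x + 1)‖ ^ 2 = _
      rw [Real.norm_eq_abs, sq_abs, div_pow, mul_pow, sg_sq, one_mul]
    have e2 : ∀ i : Fin n, ‖(stereo s x) i.succ‖ ^ 2 = 4 / (sq x + 1) ^ 2 * x i ^ 2 := by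
      intro i
      show ‖2 * x i / (sq x + 1)‖ ^ 2 = _
      rw [Real.norm_eq_abs, sq_abs, div_pow, mul_pow]
      ring
    rw [e1, Finset.sum_congr rfl (fun i _ => e2 i), ← Finset.mul_sum]
    have e3 : ∑ i, x i ^ 2 = sq x := rfl
    rw [e3]
    field_simp
    ring
  nlinarith [norm_nonneg (stereo s x)]

/-- the chart of the sphere inverse to the stereographic projection from (s, 0, ..., 0); its
image is the sphere without this point -/
def chart {n : ℕ} (s : Bool) (x : Fin n → ℝ) : Sph n :=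
  ⟨stereo s x, by rw [mem_sphere_zero_iff_norm]; exact norm_stereo s x⟩

/-- a C^2 Riemannian metric on S^n conformal to the round metric: the round metric divided by the
square of a positive function h of class C^2 on the sphere -/
structure ConfMetric (n : ℕ) where
  h : Sph n → ℝ
  smooth : ContMDiff (𝓡 n) 𝓘(ℝ, ℝ) 2 h
  pos : ∀ P, 0 < h P

namespace ConfMetric

variable {n : ℕ} (M : ConfMetric n)

/-- the matrix of the metric in a stereographic chart: the inner products in R^(n+1) of the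
partial derivatives of the chart, divided by h^2 -/
def metric (s : Bool) (x : Fin n → ℝ) : Matrix (Fin n) (Fin n) ℝ := fun i j =>
  (∑ k, pd i (fun y => stereo s y k) x * pd j (fun y => stereo s y k) x) / M.h (chart s x) ^ 2

/-- length of a curve on the sphere -/
def curveLen (γ : ℝ → Sph n) : ℝ :=
  ∫ t in (0 : ℝ)..1, ‖deriv (fun u => (γ u : EuclideanSpace ℝ (Fin (n + 1)))) t‖ / M.h (γ t)

/-- Riemannian distance: infimum of the lengths of the Lipschitz curves from P to Q -/
def dist (P Q : Sph n) : ℝ :=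
  sInf {l | ∃ γ : ℝ → Sph n, (∃ K : ℝ≥0, LipschitzWith K γ) ∧ γ 0 = P ∧ γ 1 = Q ∧
    l = M.curveLen γ}

/-- diameter -/
def diam : ℝ := sSup {d | ∃ P Q : Sph n, d = M.dist P Q}

/-- volume: the integral of h^-n over the unit sphere with its surface measure -/
def volume : ℝ :=
  ∫ P : Sph n, (M.h P)⁻¹ ^ n ∂(MeasureTheory.volume : Measure
    (EuclideanSpace ℝ (Fin (n + 1)))).toSphere

end ConfMetric

end

end Pool.Agent.Helper73.CF
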