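import Pool.Agent.Helper73.CF.Arc

/-!
The extremal pair of points and the bound of the diameter.
-/

open Filter Topology MeasureTheory Set

namespace Pool.Agent.Helper73.CF

open Pool.Agent.QPinch
open scoped NNReal

noncomputable section

variable {n : ℕ}

theorem arctan_integral {A w θ : ℝ} (hA : 0 < A) (hw : 0 < w) :
    ∫ t in (0 : ℝ)..1, 2 * θ / (A * (1 + (w * (t * θ)) ^ 2))
      = 2 / (A * w) * Real.arctan (w * θ) := by
  have h : ∀ t ∈ Set.uIcc (0 : ℝ) 1, HasDerivAt (fun t => 2 / (A * w) * Real.arctan (w * (t * θ)))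
      (2 * θ / (A * (1 + (w * (t * θ)) ^ 2))) t := by
    intro t _
    have h1 : HasDerivAt (fun t : ℝ => w * (t * θ)) (w * θ) t := by
      simpa using ((hasDerivAt_id t).mul_const θ).const_mul w
    have h2 := (h1.arctan).const_mul (2 / (A * w))
    refine h2.congr_deriv ?_
    field_simp
  rw [intervalIntegral.integral_eq_sub_of_hasDerivAt h]
  · simp
  · apply Continuous.intervalIntegrable
    refine Continuous.div (by fun_prop) (by fun_prop) (fun t => ?_)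
    positivity

theorem great_len (M : ConfMetric n) (X : Sph n) (e : EuclideanSpace ℝ (Fin (n + 1)))
    (he : ‖e‖ = 1) (hXe : inner ℝ X.1 e = 0) (θ : ℝ) (hθ : 0 ≤ θ) (hθ2 : θ ≤ Real.pi)
    {a r : ℝ} (ha : 0 < a) (hr : 0 < r) (h1 : ∀ P, a / 4 ≤ M.h P)
    (h2 : ∀ P, a / r ^ 2 * c2 P X ≤ M.h P) :
    M.curveLen (great X e he hXe θ hθ).γ ≤ Real.pi ^ 2 * (r / a) := by
  have hpi := Real.pi_pos
  rw [M.arc_len]
  set A : ℝ := a / 4 with hA
  set w : ℝ := 4 / (Real.pi * r) with hw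
  have hA0 : 0 < A := by positivity
  have hw0 : 0 < w := by positivity
  have hle : ∀ t ∈ Icc (0 : ℝ) 1, ‖(great X e he hXe θ hθ).γ' t‖
      / M.h ((great X e he hXe θ hθ).γ t) ≤ 2 * θ / (A * (1 + (w * (t * θ)) ^ 2)) := by
    intro t ht
    rw [great_norm]
    set P := (great X e he hXe θ hθ).γ t with hP
    have e1 := h1 P
    have e2 := h2 P
    have e3 : c2 P X = 2 - 2 * Real.cos (t * θ) := great_c2 X e he hXe θ hθ t
    have e4 : |t * θ| ≤ Real.pi := by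
      rw [abs_of_nonneg (mul_nonneg ht.1 hθ)]
      nlinarith [ht.1, ht.2]
    have e5 := Real.cos_le_one_sub_mul_cos_sq e4
    have e6 : 4 / Real.pi ^ 2 * (t * θ) ^ 2 ≤ c2 P X := by
      rw [e3]
      have : 4 / Real.pi ^ 2 * (t * θ) ^ 2 = 2 * (2 / Real.pi ^ 2 * (t * θ) ^ 2) := by ring
      linarith
    have e7 : a / r ^ 2 * (4 / Real.pi ^ 2 * (t * θ) ^ 2) ≤ M.h P :=
      (mul_le_mul_of_nonneg_left e6 (by positivity)).trans e2
    have e8 : a / r ^ 2 * (4 / Real.pi ^ 2 * (t * θ) ^ 2) = A * (w * (t * θ)) ^ 2 := by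
      rw [hA, hw]; field_simp
    have e9 : A * (1 + (w * (t * θ)) ^ 2) ≤ 2 * M.h P := by
      rw [e8] at e7; nlinarith
    have hp := M.pos P
    rw [div_le_div_iff₀ hp (by positivity)]
    nlinarith
  have hi1 : IntervalIntegrable (fun t => ‖(great X e he hXe θ hθ).γ' t‖
      / M.h ((great X e he hXe θ hθ).γ t)) volume 0 1 := (M.arc_cont _).intervalIntegrable 0 1
  have hi2 : IntervalIntegrable (fun t : ℝ => 2 * θ / (A * (1 + (w * (t * θ)) ^ 2))) volume 0 1 := by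
    apply Continuous.intervalIntegrable
    refine Continuous.div (by fun_prop) (by fun_prop) (fun t => ?_)
    positivity
  refine (intervalIntegral.integral_mono_on (by norm_num) hi1 hi2 hle).trans ?_
  rw [arctan_integral hA0 hw0]
  have h3 := (Real.arctan_lt_pi_div_two (w * θ)).le
  have h4 : 2 / (A * w) * Real.arctan (w * θ) ≤ 2 / (A * w) * (Real.pi / 2) :=
    mul_le_mul_of_nonneg_left h3 (by positivity)
  refine h4.trans (le_of_eq ?_)
  rw [hA, hw]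
  field_simp

theorem diam_le (M : ConfMetric n) (hn : 1 ≤ n) (X : Sph n) {a r : ℝ} (ha : 0 < a) (hr : 0 < r)
    (h1 : ∀ P, a / 4 ≤ M.h P) (h2 : ∀ P, a / r ^ 2 * c2 P X ≤ M.h P) :
    M.diam ≤ 2 * Real.pi ^ 2 * (r / a) := by
  unfold ConfMetric.diam
  apply Real.sSup_le
  · rintro d ⟨P, Q, rfl⟩
    obtain ⟨e, he, hXe, θ, hθ, hθ2, hs, ht⟩ := great_exists hn X P
    obtain ⟨e', he', hXe', θ', hθ', hθ2', hs', ht'⟩ := great_exists hn X Q
    have := dist_le_arcs M (great X e he hXe θ hθ) (great X e' he' hXe' θ' hθ')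
      (by rw [hs, hs'])
    rw [ht, ht'] at this
    have l1 := great_len M X e he hXe θ hθ hθ2 ha hr h1 h2
    have l2 := great_len M X e' he' hXe' θ' hθ' hθ2' ha hr h1 h2
    linarith
  · positivity

theorem c2_le_four (P Q : Sph n) : c2 P Q ≤ 4 := by
  unfold c2
  have := norm_sub_le P.1 Q.1
  rw [sph_norm, sph_norm] at this
  nlinarith [norm_nonneg (P.1 - Q.1)]

theorem c2_quarter {P X Y : Sph n} (h : c2 P X ≤ c2 X Y / 4) : c2 X Y / 4 ≤ c2 P Y := by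
  unfold c2 at *
  have t : ‖X.1 - Y.1‖ ≤ ‖P.1 - X.1‖ + ‖P.1 - Y.1‖ := by
    have := norm_sub_le (P.1 - Y.1) (P.1 - X.1)
    rw [show P.1 - Y.1 - (P.1 - X.1) = X.1 - Y.1 by abel] at this
    linarith
  have n1 := norm_nonneg (P.1 - X.1)
  have n2 := norm_nonneg (P.1 - Y.1)
  have n3 := norm_nonneg (X.1 - Y.1)
  have t1 : ‖P.1 - X.1‖ ≤ ‖X.1 - Y.1‖ / 2 := by
    refine (pow_le_pow_iff_left₀ n1 (by positivity) two_ne_zero).1 ?_
    linarith
  have t2 : ‖X.1 - Y.1‖ / 2 ≤ ‖P.1 - Y.1‖ := by linarith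
  have t3 := (pow_le_pow_iff_left₀ (by positivity) n2 two_ne_zero).2 t2
  linarith

theorem c2_four {P X Y : Sph n} (h : c2 P X ≤ c2 X Y) : c2 P Y ≤ 4 * c2 X Y := by
  unfold c2 at *
  have t : ‖P.1 - Y.1‖ ≤ ‖P.1 - X.1‖ + ‖X.1 - Y.1‖ := by
    have := norm_add_le (P.1 - X.1) (X.1 - Y.1)
    rwa [show P.1 - X.1 + (X.1 - Y.1) = P.1 - Y.1 by abel] at this
  have n1 := norm_nonneg (P.1 - X.1)
  have n2 := norm_nonneg (P.1 - Y.1)
  have n3 := norm_nonneg (X.1 - Y.1)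
  have t1 : ‖P.1 - X.1‖ ≤ ‖X.1 - Y.1‖ := (pow_le_pow_iff_left₀ n1 n3 two_ne_zero).1 h
  have t2 : ‖P.1 - Y.1‖ ≤ 2 * ‖X.1 - Y.1‖ := by linarith
  have t3 := (pow_le_pow_iff_left₀ n2 (by positivity) two_ne_zero).2 t2
  linarith

theorem cont_pair (M : ConfMetric n) :
    Continuous (fun p : Sph n × Sph n => c2 p.1 p.2 / (M.h p.1 * M.h p.2)) := by
  have h1 : Continuous (fun p : Sph n × Sph n => c2 p.1 p.2) := by
    unfold c2
    fun_prop
  refine h1.div ((M.continuous_h.comp continuous_fst).mul (M.continuous_h.comp continuous_snd))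
    (fun p => ?_)
  have h1 := M.pos p.1
  have h2 := M.pos p.2
  positivity

theorem exists_max {α : Type*} [TopologicalSpace α] [CompactSpace α] (a : α) {f : α → ℝ}
    (hf : Continuous f) : ∃ x, ∀ y, f y ≤ f x := by
  obtain ⟨x, -, hx⟩ := isCompact_univ.exists_isMaxOn ⟨a, Set.mem_univ a⟩ hf.continuousOn
  exact ⟨x, fun y => isMaxOn_iff.1 hx y (Set.mem_univ y)⟩

theorem sph_pair (hn : 1 ≤ n) : ∃ O Z : Sph n, 0 < c2 O Z := by
  obtain ⟨e, he, hOe⟩ := exists_unit_orth hn (chart true 0 : Sph n)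
  refine ⟨chart true 0, ⟨e, by rw [mem_sphere_zero_iff_norm]; exact he⟩, c2_pos ?_⟩
  intro h
  have h1 : (chart true 0 : Sph n).1 = e := congrArg Subtype.val h
  rw [h1, real_inner_self_eq_norm_sq, he] at hOe
  norm_num at hOe

/-- maximal pair -/
theorem max_pair0 (M : ConfMetric n) (hn : 1 ≤ n) : ∃ X Y : Sph n, 0 < c2 X Y ∧
      ∀ P Q : Sph n, c2 P Q / (M.h P * M.h Q) ≤ c2 X Y / (M.h X * M.h Y) := by
  obtain ⟨O, Z, hOZ⟩ := sph_pair hn
  obtain ⟨p, hp⟩ := exists_max (O, Z) (cont_pair M)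
  refine ⟨p.1, p.2, ?_, fun P Q => hp (P, Q)⟩
  have h1 := hp (O, Z)
  have hO := M.pos O
  have hZ := M.pos Z
  have h3 : 0 < c2 p.1 p.2 / (M.h p.1 * M.h p.2) := by
    refine lt_of_lt_of_le ?_ h1
    exact div_pos hOZ (mul_pos hO hZ)
  have h4 := mul_pos (M.pos p.1) (M.pos p.2)
  exact (div_pos_iff_of_pos_right h4).1 h3

/-- maximal pair -/
theorem max_pair (M : ConfMetric n) (hn : 1 ≤ n) : ∃ X Y : Sph n, M.h X ≤ M.h Y ∧ 0 < c2 X Y ∧
      ∀ P Q : Sph n, c2 P Q / (M.h P * M.h Q) ≤ c2 X Y / (M.h X * M.h Y) := by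
  obtain ⟨X0, Y0, hpos, hmax0⟩ := max_pair0 M hn
  rcases le_total (M.h X0) (M.h Y0) with h | h
  · exact ⟨X0, Y0, h, hpos, hmax0⟩
  · refine ⟨Y0, X0, h, by rw [c2_comm]; exact hpos, fun P Q => ?_⟩
    rw [c2_comm Y0 X0, mul_comm (M.h Y0)]
    exact hmax0 P Q

/-- scalar computations for the extremal pair -/
theorem max_bound {a b D h c : ℝ} (ha : 0 < a) (hb : 0 < b) (hD : 0 < D) (hp : 0 < h)
    (h1 : c / (h * a) ≤ D / (a * b)) : b / D * c ≤ h := by
  rw [div_le_div_iff₀ (by positivity) (by positivity)] at h1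
  have h3 : c * b ≤ D * h := by
    have : a * (c * b) ≤ a * (D * h) := by nlinarith
    exact le_of_mul_le_mul_left this ha
  rw [div_mul_eq_mul_div, div_le_iff₀ hD]
  linarith

theorem rpow_final {a b D h δ c c' : ℝ} (ha : 0 < a) (hb : 0 < b) (hD : 0 < D) (hp : 0 < h)
    (hδ : 0 < δ) (hc : 0 ≤ c) (hc' : 0 ≤ c') (h3 : (h * D) ^ δ ≤ (a * c') ^ δ + (b * c) ^ δ)
    (h4 : c' ≤ 4 * D) (hP : c ≤ D * a / b) : h ≤ (4 ^ δ + 1) ^ (1 / δ) * a := by
  have h5 : (a * c') ^ δ ≤ 4 ^ δ * (a * D) ^ δ := by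
    rw [← Real.mul_rpow (by norm_num) (by positivity)]
    exact Real.rpow_le_rpow (by positivity) (by nlinarith) hδ.le
  have h6 : (b * c) ^ δ ≤ (a * D) ^ δ := by
    apply Real.rpow_le_rpow (by positivity) _ hδ.le
    calc b * c ≤ b * (D * a / b) := mul_le_mul_of_nonneg_left hP hb.le
      _ = a * D := by field_simp
  have h7 : (h * D) ^ δ ≤ (4 ^ δ + 1) * (a * D) ^ δ := by
    calc (h * D) ^ δ ≤ _ := h3
      _ ≤ 4 ^ δ * (a * D) ^ δ + (a * D) ^ δ := add_le_add h5 h6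
      _ = _ := by ring
  have hDp : 0 < D ^ δ := Real.rpow_pos_of_pos hD δ
  rw [Real.mul_rpow hp.le hD.le, Real.mul_rpow ha.le hD.le, ← mul_assoc] at h7
  have h8 := le_of_mul_le_mul_right h7 hDp
  have h9 : (h ^ δ) ^ (1 / δ) ≤ ((4 ^ δ + 1) * a ^ δ) ^ (1 / δ) :=
    Real.rpow_le_rpow (by positivity) h8 (by positivity)
  rw [Real.mul_rpow (by positivity) (by positivity), ← Real.rpow_mul hp.le,
    ← Real.rpow_mul ha.le, mul_one_div_cancel hδ.ne', Real.rpow_one, Real.rpow_one] at h9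
  exact h9

/-- the extremal pair -/
theorem extremal {k : ℕ} (M : ConfMetric (k + 3)) {δ : ℝ} (hδ : 0 < δ) (hδ2 : δ ≤ 1 / 2)
    (hpin : ∀ (s : Bool) (x : Fin (k + 3) → ℝ), PinchedAt δ (M.metric s) x) :
    ∃ (X : Sph (k + 3)) (r : ℝ), 0 < r ∧ r ≤ 2 ∧ (∀ P, M.h X / 4 ≤ M.h P) ∧
      (∀ P, M.h X / r ^ 2 * c2 P X ≤ M.h P) ∧
      ∀ P, c2 P X ≤ r ^ 2 → M.h P ≤ (4 ^ δ + 1) ^ (1 / δ) * M.h X := by
  obtain ⟨X, Y, hXY, hD, hmax⟩ := max_pair M (by omega : 1 ≤ k + 3)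
  have h3 : ∀ P, (M.h P * c2 X Y) ^ δ ≤ (M.h X * c2 P Y) ^ δ + (M.h Y * c2 P X) ^ δ :=
    fun P => three_point M hδ hδ2 hpin P X Y
  have ha := M.pos X
  have hb := M.pos Y
  have hD4 : c2 X Y ≤ 4 := c2_le_four X Y
  have hr2 : Real.sqrt (c2 X Y * M.h X / M.h Y) ^ 2 = c2 X Y * M.h X / M.h Y :=
    Real.sq_sqrt (by positivity)
  have hrle : c2 X Y * M.h X / M.h Y ≤ c2 X Y := by
    rw [div_le_iff₀ hb]; exact mul_le_mul_of_nonneg_left hXY hD.le
  have mX : ∀ P, M.h Y / c2 X Y * c2 P X ≤ M.h P := fun P =>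
    max_bound ha hb hD (M.pos P) (hmax P X)
  have mY : ∀ P, M.h X / c2 X Y * c2 P Y ≤ M.h P := fun P =>
    max_bound hb ha hD (M.pos P) (by rw [mul_comm (M.h Y) (M.h X)]; exact hmax P Y)
  refine ⟨X, Real.sqrt (c2 X Y * M.h X / M.h Y), Real.sqrt_pos.2 (by positivity), ?_, ?_, ?_, ?_⟩
  · rw [Real.sqrt_le_left (by norm_num)]
    linarith
  · intro P
    by_cases hP : c2 P X ≤ c2 X Y / 4
    · have h1 := c2_quarter hP
      have h2 := mY P
      have h4 : M.h X / c2 X Y * (c2 X Y / 4) ≤ M.h X / c2 X Y * c2 P Y :=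
        mul_le_mul_of_nonneg_left h1 (by positivity)
      have h5 : M.h X / c2 X Y * (c2 X Y / 4) = M.h X / 4 := by field_simp
      linarith
    · push Not at hP
      have h2 := mX P
      have h4 : M.h Y / c2 X Y * (c2 X Y / 4) ≤ M.h Y / c2 X Y * c2 P X :=
        mul_le_mul_of_nonneg_left hP.le (by positivity)
      have h5 : M.h Y / c2 X Y * (c2 X Y / 4) = M.h Y / 4 := by field_simp
      linarith
  · intro P
    rw [hr2]
    have h1 : M.h X / (c2 X Y * M.h X / M.h Y) = M.h Y / c2 X Y := by field_simp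
    rw [h1]
    exact mX P
  · intro P hP
    rw [hr2] at hP
    exact rpow_final ha hb hD (M.pos P) hδ (c2_nonneg P X) (c2_nonneg P Y) (h3 P)
      (c2_four (hP.trans hrle)) hP

end

end Pool.Agent.Helper73.CF
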