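import Pool.Agent.Helper73.CF.Vol

/-!
No collapse of pointwise pinched conformally flat metrics on spheres.
-/

namespace Pool.Agent.Helper73.CF

open Pool.Agent.QPinch

noncomputable section

theorem pinched_mono {n : ℕ} {δ δ' : ℝ} {g : (Fin n → ℝ) → Matrix (Fin n) (Fin n) ℝ}
    {x : Fin n → ℝ} (h : PinchedAt δ g x) (hle : δ' ≤ δ) : PinchedAt δ' g x := by
  intro u v u' v' h1 h2
  have a := h u v u' v' h1 h2
  have b := (h u' v' u' v' h2 h2).1
  exact ⟨a.1, lt_of_le_of_lt (mul_le_mul_of_nonneg_right hle b.le) a.2⟩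

theorem conf_noncollapse (n : ℕ) (hn : 3 ≤ n) (δ : ℝ) (hδ : 0 < δ) :
    ∃ ε : ℝ, 0 < ε ∧ ∀ M : ConfMetric n,
      (∀ (s : Bool) (x : Fin n → ℝ), PinchedAt δ (M.metric s) x) →
      ε * M.diam ^ n ≤ M.volume := by
  obtain ⟨k, rfl⟩ := Nat.exists_eq_add_of_le' hn
  obtain ⟨c, hc, hcap⟩ := cap_measure (k + 3)
  set d : ℝ := min δ (1 / 2) with hd
  have hd0 : 0 < d := lt_min hδ (by norm_num)
  have hd2 : d ≤ 1 / 2 := min_le_right _ _
  set C : ℝ := (4 ^ d + 1) ^ (1 / d) with hC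
  have hC0 : 0 < C := by positivity
  have hpi := Real.pi_pos
  refine ⟨c * (C⁻¹ / (2 * Real.pi ^ 2)) ^ (k + 3), by positivity, fun M hM => ?_⟩
  have hpin : ∀ (s : Bool) (x : Fin (k + 3) → ℝ), PinchedAt d (M.metric s) x :=
    fun s x => pinched_mono (hM s x) (min_le_left _ _)
  obtain ⟨X, r, hr, hr2, h1, h2, h3⟩ := extremal M hd0 hd2 hpin
  have ha := M.pos X
  have hdiam := diam_le M (by omega) X ha hr h1 h2
  have hvol := vol_ge M X hr hC0 (hcap X r hr hr2) h3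
  have hdnn : 0 ≤ M.diam := by
    unfold ConfMetric.diam
    apply Real.sSup_nonneg
    rintro _ ⟨P, Q, rfl⟩
    unfold ConfMetric.dist
    apply Real.sInf_nonneg
    rintro _ ⟨γ, -, -, -, rfl⟩
    exact M.curveLen_nonneg γ
  calc c * (C⁻¹ / (2 * Real.pi ^ 2)) ^ (k + 3) * M.diam ^ (k + 3)
      ≤ c * (C⁻¹ / (2 * Real.pi ^ 2)) ^ (k + 3)
        * (2 * Real.pi ^ 2 * (r / M.h X)) ^ (k + 3) := by
        gcongr
    _ = c * (C⁻¹ * (r / M.h X)) ^ (k + 3) := by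
        rw [mul_assoc, ← mul_pow]
        congr 2
        field_simp
    _ ≤ M.volume := hvol

end

end Pool.Agent.Helper73.CF
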