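import Pool.Agent.Helper73.CF.Curv

/-!
The key inequality of a pointwise pinched conformally flat metric, and its second order
consequences at a touching point.
-/

open Filter Topology

namespace Pool.Agent.Helper73.CF

open Pool.Agent.QPinch

noncomputable section

variable {n : ℕ}

theorem line1 {v : (Fin n → ℝ) → ℝ} (hv : ContDiff ℝ 2 v) (p b : Fin n → ℝ) (t : ℝ) :
    HasDerivAt (fun t : ℝ => v (p + t • b)) (fderiv ℝ v (p + t • b) b) t := by
  have h1 : HasDerivAt (fun t : ℝ => p + t • b) b t := by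
    simpa using ((hasDerivAt_id t).smul_const b).const_add p
  exact ((hv.differentiable (by norm_num)) (p + t • b)).hasFDerivAt.comp_hasDerivAt t h1

theorem differentiable_fderiv {v : (Fin n → ℝ) → ℝ} (hv : ContDiff ℝ 2 v) :
    Differentiable ℝ (fderiv ℝ v) :=
  (hv.fderiv_right (m := 1) (by norm_num)).differentiable (by norm_num)

theorem line2 {v : (Fin n → ℝ) → ℝ} (hv : ContDiff ℝ 2 v) (p b : Fin n → ℝ) :
    HasDerivAt (fun t : ℝ => fderiv ℝ v (p + t • b) b) (fderiv ℝ (fderiv ℝ v) p b b) 0 := by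
  have h1 : HasDerivAt (fun t : ℝ => p + t • b) b 0 := by
    simpa using ((hasDerivAt_id (0 : ℝ)).smul_const b).const_add p
  have h2 : HasFDerivAt (fderiv ℝ v) (fderiv ℝ (fderiv ℝ v) p) (p + (0 : ℝ) • b) := by
    rw [zero_smul, add_zero]; exact (differentiable_fderiv hv p).hasFDerivAt
  have h3 := h2.comp_hasDerivAt (0 : ℝ) h1
  have h4 := h3.clm_apply (hasDerivAt_const (0 : ℝ) b)
  simpa using h4

theorem pd_fderiv {v : (Fin n → ℝ) → ℝ} (hv : ContDiff ℝ 2 v) (i : Fin n) :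
    pd i v = fun x => fderiv ℝ v x (Pi.single i 1) :=
  funext fun x => pd_eq ((hv.differentiable (by norm_num)) x) i

theorem differentiable_pd {v : (Fin n → ℝ) → ℝ} (hv : ContDiff ℝ 2 v) (i : Fin n) :
    Differentiable ℝ (pd i v) := by
  rw [pd_fderiv hv i]
  exact (differentiable_fderiv hv).clm_apply (differentiable_const _)

theorem pd_pd {v : (Fin n → ℝ) → ℝ} (hv : ContDiff ℝ 2 v) (i j : Fin n) (x : Fin n → ℝ) :
    pd i (pd j v) x = fderiv ℝ (fderiv ℝ v) x (Pi.single i 1) (Pi.single j 1) := by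
  rw [pd_eq (differentiable_pd hv j x), pd_fderiv hv j]
  have h1 : HasFDerivAt (fun x => fderiv ℝ v x (Pi.single j (1 : ℝ)))
      ((fderiv ℝ (fderiv ℝ v) x).flip (Pi.single j 1)) x := by
    have := (differentiable_fderiv hv x).hasFDerivAt.clm_apply
      (hasFDerivAt_const (Pi.single j (1 : ℝ)) x)
    simpa using this
  rw [h1.fderiv]
  rfl

theorem pd_symm {v : (Fin n → ℝ) → ℝ} (hv : ContDiff ℝ 2 v) (i j : Fin n) (x : Fin n → ℝ) :
    pd i (pd j v) x = pd j (pd i v) x := by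
  rw [pd_pd hv, pd_pd hv]
  exact (hv.contDiffAt.isSymmSndFDerivAt (by simp)) _ _

theorem vec_sum (b : Fin n → ℝ) : b = ∑ i, b i • (Pi.single i (1 : ℝ) : Fin n → ℝ) := by
  ext j
  simp [Finset.sum_apply, Pi.single_apply]

theorem fderiv_dt {v : (Fin n → ℝ) → ℝ} (hv : ContDiff ℝ 2 v) (p b : Fin n → ℝ) :
    fderiv ℝ v p b = dt b (fun i => pd i v p) := by
  conv_lhs => rw [vec_sum b]
  rw [map_sum]
  unfold dt
  refine Finset.sum_congr rfl (fun i _ => ?_)
  beta_reduce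
  rw [map_smul, pd_eq ((hv.differentiable (by norm_num)) p) i, smul_eq_mul]

theorem hess_bil {v : (Fin n → ℝ) → ℝ} (hv : ContDiff ℝ 2 v) (p b : Fin n → ℝ) :
    fderiv ℝ (fderiv ℝ v) p b b = bil (fun i j => pd i (pd j v) p) b b := by
  have h : ∀ c : Fin n → ℝ, fderiv ℝ (fderiv ℝ v) p c b
      = ∑ j, b j * fderiv ℝ (fderiv ℝ v) p c (Pi.single j 1) := by
    intro c
    conv_lhs => rw [vec_sum b]
    rw [map_sum]
    exact Finset.sum_congr rfl (fun j _ => by rw [map_smul, smul_eq_mul])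
  have h' : fderiv ℝ (fderiv ℝ v) p b b
      = ∑ i, b i * fderiv ℝ (fderiv ℝ v) p (Pi.single i 1) b := by
    have h1 : fderiv ℝ (fderiv ℝ v) p b
        = ∑ i, b i • fderiv ℝ (fderiv ℝ v) p (Pi.single i 1) := by
      conv_lhs => rw [vec_sum b]
      rw [map_sum]
      exact Finset.sum_congr rfl (fun j _ => by rw [map_smul])
    have h2 := congrArg (fun L : (Fin n → ℝ) →L[ℝ] ℝ => L b) h1
    simpa using h2
  rw [h']
  unfold bil
  refine Finset.sum_congr rfl (fun i _ => ?_)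
  rw [h, Finset.mul_sum]
  refine Finset.sum_congr rfl (fun j _ => ?_)
  beta_reduce
  rw [pd_pd hv]
  ring

/-- orthonormal frame of coordinate vectors -/
structure Frame (n : ℕ) where
  b : Fin n → (Fin n → ℝ)
  orth : ∀ i j, dt (b i) (b j) = if i = j then 1 else 0
  pars : ∀ a : Fin n → ℝ, ∑ i, dt (b i) a ^ 2 = dt a a

theorem inner_dt (x y : EuclideanSpace ℝ (Fin n)) : inner ℝ x y = dt x.ofLp y.ofLp := by
  rw [PiLp.inner_apply]
  unfold dt
  refine Finset.sum_congr rfl (fun i _ => ?_)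
  simp [mul_comm]

/-- there is a frame whose last vectors are orthogonal to a given vector -/
theorem frame_exists (m : ℕ) (D : Fin (m + 1) → ℝ) :
    ∃ F : Frame (m + 1), ∀ j : Fin m, dt (F.b j.succ) D = 0 := by
  classical
  obtain ⟨ν, hν, hD⟩ : ∃ ν : EuclideanSpace ℝ (Fin (m + 1)), ‖ν‖ = 1 ∧
      ∃ c : ℝ, WithLp.toLp 2 D = c • ν := by
    by_cases h : (WithLp.toLp 2 D : EuclideanSpace ℝ (Fin (m + 1))) = 0
    · obtain ⟨ν, hν⟩ := exists_norm_eq (EuclideanSpace ℝ (Fin (m + 1))) (zero_le_one' ℝ)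
      exact ⟨ν, hν, 0, by rw [h, zero_smul]⟩
    · refine ⟨(‖(WithLp.toLp 2 D : EuclideanSpace ℝ (Fin (m + 1)))‖)⁻¹ • WithLp.toLp 2 D, ?_,
        ‖(WithLp.toLp 2 D : EuclideanSpace ℝ (Fin (m + 1)))‖, ?_⟩
      · rw [norm_smul, norm_inv, norm_norm, inv_mul_cancel₀ (norm_ne_zero_iff.2 h)]
      · rw [smul_smul, mul_inv_cancel₀ (norm_ne_zero_iff.2 h), one_smul]
  obtain ⟨c, hc⟩ := hD
  have hcard : Module.finrank ℝ (EuclideanSpace ℝ (Fin (m + 1))) = Fintype.card (Fin (m + 1)) := by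
    simp
  have horth : Orthonormal ℝ (Set.domRestrict ({0} : Set (Fin (m + 1)))
      (fun _ : Fin (m + 1) => ν)) := by
    constructor
    · intro i; exact hν
    · intro i j hij
      exact absurd (Subsingleton.elim i j) hij
  obtain ⟨b, hb⟩ := Orthonormal.exists_orthonormalBasis_extension_of_card_eq hcard horth
  have hb0 : b 0 = ν := hb 0 rfl
  refine ⟨⟨fun i => (b i).ofLp, ?_, ?_⟩, ?_⟩
  · intro i j
    rw [← inner_dt]
    exact orthonormal_iff_ite.1 b.orthonormal i j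
  · intro a
    have h1 := b.sum_sq_inner_right (WithLp.toLp 2 a)
    have h2 : ∀ i, dt (b i).ofLp a = inner ℝ (b i) (WithLp.toLp 2 a) := by
      intro i; rw [inner_dt]
    simp only [h2]
    rw [h1, ← real_inner_self_eq_norm_sq, inner_dt]
  · intro j
    have h1 : dt (b j.succ).ofLp D = inner ℝ (b j.succ) (WithLp.toLp 2 D) := by rw [inner_dt]
    show dt (b j.succ).ofLp D = 0
    rw [h1, hc, inner_smul_right, ← hb0]
    rw [b.inner_eq_zero (Fin.succ_ne_zero j), mul_zero]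

theorem dt_smul_add (a c : ℝ) (u w z : Fin n → ℝ) :
    dt (a • u + c • w) z = a * dt u z + c * dt w z := by
  unfold dt
  rw [Finset.mul_sum, Finset.mul_sum, ← Finset.sum_add_distrib]
  exact Finset.sum_congr rfl (fun i _ => by simp; ring)

theorem Frame.indep (F : Frame n) {i j : Fin n} (h : i ≠ j) :
    LinearIndependent ℝ ![F.b i, F.b j] := by
  rw [LinearIndependent.pair_iff]
  intro a c hac
  have h1 := dt_smul_add a c (F.b i) (F.b j) (F.b i)
  have h2 := dt_smul_add a c (F.b i) (F.b j) (F.b j)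
  rw [hac, F.orth i i, F.orth j i, if_pos rfl, if_neg (Ne.symm h)] at h1
  rw [hac, F.orth i j, F.orth j j, if_pos rfl, if_neg h] at h2
  have h3 : ∀ z : Fin n → ℝ, dt (0 : Fin n → ℝ) z = 0 := by
    intro z; unfold dt; simp
  rw [h3] at h1 h2
  constructor <;> linarith

theorem Frame.sec_eq {v : (Fin n → ℝ) → ℝ} (hv : ContDiff ℝ 2 v) (pos : ∀ x, 0 < v x)
    (x : Fin n → ℝ) (F : Frame n) {i j : Fin n} (h : i ≠ j) :
    sec (dg (fe v)) x (F.b i) (F.b j) = v x * (fderiv ℝ (fderiv ℝ v) x (F.b i) (F.b i)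
      + fderiv ℝ (fderiv ℝ v) x (F.b j) (F.b j)) - ∑ l, fderiv ℝ v x (F.b l) ^ 2 := by
  rw [sec_flat (hv.differentiable (by norm_num)) pos (differentiable_pd hv) x
    (fun i j => pd_symm hv i j x) _ _ (by rw [F.orth, if_pos rfl]) (by rw [F.orth, if_pos rfl])
    (by rw [F.orth, if_neg h]), hess_bil hv, hess_bil hv]
  congr 1
  have h1 := F.pars (fun i => pd i v x)
  simp only [fderiv_dt hv]
  rw [h1]
  unfold dt
  exact Finset.sum_congr rfl (fun i _ => by ring)

/-- the key inequality -/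
theorem key {k : ℕ} {v : (Fin (k + 3) → ℝ) → ℝ} (hv : ContDiff ℝ 2 v) (pos : ∀ x, 0 < v x)
    (x : Fin (k + 3) → ℝ) (δ : ℝ) (hP : PinchedAt δ (dg (fe v)) x) (F : Frame (k + 3)) :
    ((k : ℝ) + 2) * (1 - δ) * ∑ i, fderiv ℝ v x (F.b i) ^ 2
      < ((k : ℝ) + 2) * v x * fderiv ℝ (fderiv ℝ v) x (F.b 0) (F.b 0)
        + (1 - 2 * δ) * v x * ∑ j : Fin (k + 2),
          fderiv ℝ (fderiv ℝ v) x (F.b j.succ) (F.b j.succ) := by
  set H : Fin (k + 3) → ℝ := fun i => fderiv ℝ (fderiv ℝ v) x (F.b i) (F.b i) with hH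
  set G : ℝ := ∑ i, fderiv ℝ v x (F.b i) ^ 2 with hG
  have e : ∀ i j, i ≠ j → sec (dg (fe v)) x (F.b i) (F.b j) = v x * (H i + H j) - G :=
    fun i j h => F.sec_eq hv pos x h
  have h1 : ∀ j : Fin (k + 2), δ * (v x * (H j.succ + H (j + 1).succ) - G)
      < v x * (H 0 + H j.succ) - G := by
    intro j
    have n1 : (0 : Fin (k + 3)) ≠ j.succ := (Fin.succ_ne_zero j).symm
    have n2 : j.succ ≠ (j + 1).succ := by
      intro h
      have h3 : j = j + 1 := Fin.succ_injective _ h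
      have h4 : (1 : Fin (k + 2)) = 0 := by
        have := congrArg (fun z => z - j) h3
        simp at this
      exact absurd h4 (by simp)
    have := (hP _ _ _ _ (F.indep n1) (F.indep n2)).2
    rw [e _ _ n1, e _ _ n2] at this
    exact this
  have h2 : ∑ j : Fin (k + 2), δ * (v x * (H j.succ + H (j + 1).succ) - G)
      < ∑ j : Fin (k + 2), (v x * (H 0 + H j.succ) - G) :=
    Finset.sum_lt_sum_of_nonempty Finset.univ_nonempty (fun j _ => h1 j)
  have h3 : ∑ j : Fin (k + 2), H (j + 1).succ = ∑ j : Fin (k + 2), H j.succ :=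
    Equiv.sum_comp (Equiv.addRight (1 : Fin (k + 2))) (fun j => H j.succ)
  have h4 : ∑ j : Fin (k + 2), δ * (v x * (H j.succ + H (j + 1).succ) - G)
      = δ * (v x * (2 * ∑ j : Fin (k + 2), H j.succ) - ((k : ℝ) + 2) * G) := by
    rw [← Finset.mul_sum, Finset.sum_sub_distrib, ← Finset.mul_sum, Finset.sum_add_distrib, h3,
      Finset.sum_const, Finset.card_univ, Fintype.card_fin, nsmul_eq_mul]
    push_cast
    ring
  have h5 : ∑ j : Fin (k + 2), (v x * (H 0 + H j.succ) - G)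
      = v x * (((k : ℝ) + 2) * H 0 + ∑ j : Fin (k + 2), H j.succ) - ((k : ℝ) + 2) * G := by
    rw [Finset.sum_sub_distrib, ← Finset.mul_sum, Finset.sum_add_distrib]
    simp
  rw [h4, h5] at h2
  linarith

/-- necessary conditions of first and second order at a local minimum -/
theorem second_test {F F' : ℝ → ℝ} {c : ℝ} (h1 : ∀ᶠ t in 𝓝 (0 : ℝ), HasDerivAt F (F' t) t)
    (h2 : HasDerivAt F' c 0) (hm : IsLocalMin F 0) : F' 0 = 0 ∧ 0 ≤ c := by
  have a1 : F' 0 = 0 := hm.hasDerivAt_eq_zero h1.self_of_nhds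
  refine ⟨a1, ?_⟩
  by_contra hc
  push Not at hc
  have e1 : deriv F =ᶠ[𝓝 0] F' := h1.mono (fun t ht => ht.deriv)
  have e2 : deriv (deriv F) 0 = c := by
    rw [e1.deriv_eq]; exact h2.deriv
  have e3 : deriv F 0 = 0 := by rw [h1.self_of_nhds.deriv, a1]
  have hM := isLocalMax_of_deriv_deriv_neg (by rw [e2]; exact hc) e3
    h1.self_of_nhds.continuousAt
  have e4 : F =ᶠ[𝓝 0] fun _ => F 0 := by
    filter_upwards [hm, hM] with t h3 h4
    exact le_antisymm h4 h3
  have e5 : deriv F =ᶠ[𝓝 0] fun _ => 0 := by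
    have := e4.deriv
    simpa using this
  have e6 : deriv (deriv F) 0 = 0 := by
    rw [e5.deriv_eq]; simp
  linarith

end

end Pool.Agent.Helper73.CF
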