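import Pool.Agent.Helper73.CF.Chart

/-!
The three point inequality.
-/

open Filter Topology

namespace Pool.Agent.Helper73.CF

open Pool.Agent.QPinch

noncomputable section

variable {n : ℕ}

/-- square of the chordal distance -/
def c2 (P Q : Sph n) : ℝ :=
  ‖(P : EuclideanSpace ℝ (Fin (n + 1))) - (Q : EuclideanSpace ℝ (Fin (n + 1)))‖ ^ 2

theorem c2_comm (P Q : Sph n) : c2 P Q = c2 Q P := by
  unfold c2; rw [norm_sub_rev]

theorem c2_self (P : Sph n) : c2 P P = 0 := by
  unfold c2; simp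

theorem c2_nonneg (P Q : Sph n) : 0 ≤ c2 P Q := by unfold c2; positivity

theorem c2_pos {P Q : Sph n} (h : P ≠ Q) : 0 < c2 P Q := by
  unfold c2
  have : (P : EuclideanSpace ℝ (Fin (n + 1))) - Q ≠ 0 := sub_ne_zero.2 (fun h' => h (Subtype.ext h'))
  positivity

theorem continuous_c2 (Q : Sph n) : Continuous (fun P => c2 P Q) := by
  unfold c2
  exact ((continuous_subtype_val.sub continuous_const).norm).pow 2

theorem sph_norm (P : Sph n) : ‖(P : EuclideanSpace ℝ (Fin (n + 1)))‖ = 1 := by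
  have := P.2
  rwa [mem_sphere_zero_iff_norm] at this

/-- coordinates of a point of the sphere -/
theorem sph_coord (P : Sph n) : (P.1 0) ^ 2 + ∑ i : Fin n, (P.1 i.succ) ^ 2 = 1 := by
  have h := EuclideanSpace.norm_sq_eq P.1
  rw [sph_norm, Fin.sum_univ_succ] at h
  simp only [Real.norm_eq_abs, sq_abs] at h
  rw [← h]; norm_num

/-- the quadratic function of a point in a chart -/
def rho (s : Bool) (P : Sph n) (c : ℝ) : NQ n where
  a := c * (1 - sg s * P.1 0)
  b := fun i => -(c * P.1 i.succ)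
  c := c * (1 + sg s * P.1 0)
  null := by
    have h1 := sph_coord P
    have h2 := sg_sq s
    have e : dt (fun i : Fin n => -(c * P.1 i.succ)) (fun i : Fin n => -(c * P.1 i.succ))
        = c ^ 2 * ∑ i : Fin n, (P.1 i.succ) ^ 2 := by
      unfold dt
      rw [Finset.mul_sum]
      exact Finset.sum_congr rfl (fun i _ => by ring)
    rw [e]
    have : ∑ i : Fin n, (P.1 i.succ) ^ 2 = 1 - sg s ^ 2 * (P.1 0) ^ 2 := by rw [h2]; linarith
    rw [this]
    ring

theorem inner_chart (s : Bool) (x : Fin n → ℝ) (P : Sph n) :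
    inner ℝ (chart s x).1 P.1 = (sg s * (sq x - 1) * P.1 0
      + 2 * ∑ i, x i * P.1 i.succ) / (sq x + 1) := by
  rw [inner_dt]
  unfold dt
  rw [Fin.sum_univ_succ]
  have e1 : (chart s x).1.ofLp 0 = sg s * (sq x - 1) / (sq x + 1) := rfl
  have e2 : ∀ i : Fin n, (chart s x).1.ofLp i.succ = 2 * x i / (sq x + 1) := fun i => rfl
  rw [e1]
  simp only [e2]
  rw [add_div, Finset.mul_sum, Finset.sum_div]
  congr 1
  · ring
  · exact Finset.sum_congr rfl (fun i _ => by ring)

theorem c2_inner (P Q : Sph n) : c2 P Q = 2 - 2 * inner ℝ P.1 Q.1 := by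
  unfold c2
  rw [@norm_sub_sq_real, sph_norm, sph_norm]
  ring

theorem rho_f (s : Bool) (P : Sph n) (c : ℝ) (x : Fin n → ℝ) :
    (rho s P c).f x = (sq x + 1) / 2 * (c * c2 (chart s x) P) := by
  rw [c2_inner, inner_chart]
  unfold NQ.f rho
  simp only
  have e1 : dt x x = sq x := by
    unfold dt sq; exact Finset.sum_congr rfl (fun i _ => by ring)
  have e2 : dt (fun i : Fin n => -(c * P.1 i.succ)) x = - c * ∑ i, x i * P.1 i.succ := by
    unfold dt
    rw [Finset.mul_sum]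
    exact Finset.sum_congr rfl (fun i _ => by ring)
  rw [e1, e2]
  have := (q1_pos x).ne'
  field_simp
  ring

/-- every point is in the image of one of the charts -/
theorem chart_surj (P : Sph n) : ∃ s x, chart s x = P := by
  obtain ⟨s, hs⟩ : ∃ s : Bool, sg s * P.1 0 ≠ 1 := by
    by_cases h : P.1 0 = 1
    · exact ⟨false, by rw [h]; unfold sg; norm_num⟩
    · refine ⟨true, ?_⟩
      unfold sg
      simpa using h
  have h1 : (1 - sg s * P.1 0) ≠ 0 := sub_ne_zero.2 (Ne.symm hs)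
  have h2 := sph_coord P
  have h3 := sg_sq s
  refine ⟨s, fun i => P.1 i.succ / (1 - sg s * P.1 0), ?_⟩
  have hq : sq (fun i : Fin n => P.1 i.succ / (1 - sg s * P.1 0))
      = (1 + sg s * P.1 0) / (1 - sg s * P.1 0) := by
    unfold sq
    simp only [div_pow]
    rw [← Finset.sum_div]
    have : ∑ i : Fin n, (P.1 i.succ) ^ 2 = 1 - sg s ^ 2 * (P.1 0) ^ 2 := by rw [h3]; linarith
    rw [this]
    field_simp
    ring
  have hq1 : sq (fun i : Fin n => P.1 i.succ / (1 - sg s * P.1 0)) + 1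
      = 2 / (1 - sg s * P.1 0) := by
    rw [hq]; field_simp; ring
  have hq2 : sq (fun i : Fin n => P.1 i.succ / (1 - sg s * P.1 0)) - 1
      = 2 * sg s * P.1 0 / (1 - sg s * P.1 0) := by
    rw [hq]; field_simp; ring
  apply Subtype.ext
  ext i
  refine Fin.cases ?_ ?_ i
  · show sg s * (sq (fun i : Fin n => P.1 i.succ / (1 - sg s * P.1 0)) - 1)
      / (sq (fun i : Fin n => P.1 i.succ / (1 - sg s * P.1 0)) + 1) = P.1 0
    rw [hq1, hq2]
    field_simp
    rw [h3]
    ring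
  · intro k
    show 2 * (P.1 k.succ / (1 - sg s * P.1 0))
      / (sq (fun i : Fin n => P.1 i.succ / (1 - sg s * P.1 0)) + 1) = P.1 k.succ
    rw [hq1]
    field_simp

/-- the three point inequality -/
theorem three_point {k : ℕ} (M : ConfMetric (k + 3)) {δ : ℝ} (hδ : 0 < δ) (hδ2 : δ ≤ 1 / 2)
    (hpin : ∀ (s : Bool) (x : Fin (k + 3) → ℝ), PinchedAt δ (M.metric s) x)
    (P Q R : Sph (k + 3)) :
    (M.h P * c2 Q R) ^ δ ≤ (M.h Q * c2 P R) ^ δ + (M.h R * c2 P Q) ^ δ := by
  by_cases hQR : Q = R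
  · subst hQR
    rw [c2_self, mul_zero, Real.zero_rpow hδ.ne']
    have h1 := c2_nonneg P Q
    have h2 := M.pos Q
    positivity
  have hcQR := c2_pos hQR
  have hden : ∀ P : Sph (k + 3), 0 < (M.h Q * c2 P R) ^ δ + (M.h R * c2 P Q) ^ δ := by
    intro P
    have h2 := M.pos Q
    have h3 := M.pos R
    have h4 := c2_nonneg P Q
    have h5 := c2_nonneg P R
    by_cases hP : P = R
    · have : P ≠ Q := fun h => hQR (h.symm.trans hP)
      have := c2_pos this
      positivity
    · have := c2_pos hP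
      positivity
  have hcont : Continuous (fun P : Sph (k + 3) => (M.h P * c2 Q R) ^ δ
      / ((M.h Q * c2 P R) ^ δ + (M.h R * c2 P Q) ^ δ)) := by
    refine Continuous.div ?_ ?_ (fun P => (hden P).ne')
    · exact (M.continuous_h.mul continuous_const).rpow_const (fun P => Or.inr hδ.le)
    · exact ((continuous_const.mul (continuous_c2 R)).rpow_const (fun P => Or.inr hδ.le)).add
        ((continuous_const.mul (continuous_c2 Q)).rpow_const (fun P => Or.inr hδ.le))
  obtain ⟨Z, -, hZ⟩ := isCompact_univ.exists_isMaxOn (⟨P, Set.mem_univ P⟩ : (Set.univ : Set (Sph (k + 3))).Nonempty)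
    hcont.continuousOn
  have hZ' : ∀ P : Sph (k + 3), (M.h P * c2 Q R) ^ δ
      / ((M.h Q * c2 P R) ^ δ + (M.h R * c2 P Q) ^ δ) ≤ (M.h Z * c2 Q R) ^ δ
      / ((M.h Q * c2 Z R) ^ δ + (M.h R * c2 Z Q) ^ δ) := fun P => hZ (Set.mem_univ P)
  suffices h : (M.h Z * c2 Q R) ^ δ / ((M.h Q * c2 Z R) ^ δ + (M.h R * c2 Z Q) ^ δ) ≤ 1 by
    have := (hZ' P).trans h
    rwa [div_le_one (hden P)] at this
  by_cases hZQ : Z = Q
  · subst hZQ
    rw [c2_self, mul_zero, Real.zero_rpow hδ.ne', add_zero]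
    exact div_self_le_one _
  by_cases hZR : Z = R
  · subst hZR
    rw [c2_self, mul_zero, Real.zero_rpow hδ.ne', zero_add, c2_comm Q Z]
    exact div_self_le_one _
  exfalso
  obtain ⟨s, p, hp⟩ := chart_surj Z
  set μ := (M.h Z * c2 Q R) ^ δ / ((M.h Q * c2 Z R) ^ δ + (M.h R * c2 Z Q) ^ δ) with hμ
  have hpin' : PinchedAt δ (dg (fe (M.v s))) p := by
    rw [← M.metric_eq]; exact hpin s p
  -- relation of the functions
  have key : ∀ (x : Fin (k + 3) → ℝ) (c : ℝ) (P : Sph (k + 3)), 0 ≤ c →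
      (rho s P c).f x ^ δ = ((sq x + 1) / 2) ^ δ * (c * c2 (chart s x) P) ^ δ := by
    intro x c P hc
    have h1 := q1_pos x
    have h2 := c2_nonneg (chart s x) P
    rw [rho_f, Real.mul_rpow (by positivity) (by positivity)]
  have keyv : ∀ x : Fin (k + 3) → ℝ, M.v s x ^ δ * (c2 Q R) ^ δ
      = ((sq x + 1) / 2) ^ δ * (M.h (chart s x) * c2 Q R) ^ δ := by
    intro x
    have h1 := q1_pos x
    have h2 := M.pos (chart s x)
    unfold ConfMetric.v
    rw [Real.mul_rpow (by positivity) h2.le, Real.mul_rpow h2.le hcQR.le]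
    ring
  have hCpos : 0 < (c2 Q R) ^ δ := Real.rpow_pos_of_pos hcQR δ
  have hQ := M.pos Q
  have hR := M.pos R
  refine no_touch (M.contDiff_v s) (M.v_pos s) p hδ hδ2 (μ := μ / (c2 Q R) ^ δ) hpin'
    (rho s R (M.h Q)) (rho s Q (M.h R)) ?_ ?_ ?_ ?_
  · rw [rho_f, hp]
    have h1 := q1_pos p
    have h2 := c2_pos hZR
    positivity
  · rw [rho_f, hp]
    have h1 := q1_pos p
    have h2 := c2_pos hZQ
    positivity
  · rw [key p _ R hQ.le, key p _ Q hR.le, div_mul_eq_mul_div, eq_div_iff hCpos.ne', keyv, hp,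
      ← mul_add, hμ]
    have := (hden Z).ne'
    field_simp
  · intro x
    rw [key x _ R hQ.le, key x _ Q hR.le, div_mul_eq_mul_div, le_div_iff₀ hCpos, keyv,
      ← mul_add]
    have h1 := hZ' (chart s x)
    rw [div_le_iff₀ (hden _)] at h1
    have h2 : (0 : ℝ) ≤ ((sq x + 1) / 2) ^ δ := by
      have := q1_pos x
      positivity
    calc ((sq x + 1) / 2) ^ δ * (M.h (chart s x) * c2 Q R) ^ δ
        ≤ ((sq x + 1) / 2) ^ δ * (μ * ((M.h Q * c2 (chart s x) R) ^ δ
          + (M.h R * c2 (chart s x) Q) ^ δ)) := mul_le_mul_of_nonneg_left h1 h2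
      _ = _ := by ring

end

end Pool.Agent.Helper73.CF
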