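import Pool.Agent.Helper73.CF.Extremal

/-!
The measure of a cap of the sphere and the lower bound of the volume.
-/

open Filter Topology MeasureTheory Set

namespace Pool.Agent.Helper73.CF

open scoped NNReal ENNReal Pointwise

noncomputable section

variable {n : ℕ}

/-- orthonormal basis starting with a given point of the sphere -/
theorem basis_exists (X : Sph n) :
    ∃ b : OrthonormalBasis (Fin (n + 1)) ℝ (EuclideanSpace ℝ (Fin (n + 1))), b 0 = X.1 := by
  have hcard : Module.finrank ℝ (EuclideanSpace ℝ (Fin (n + 1))) = Fintype.card (Fin (n + 1)) := by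
    simp
  have horth : Orthonormal ℝ (Set.domRestrict ({0} : Set (Fin (n + 1)))
      (fun _ : Fin (n + 1) => X.1)) := by
    constructor
    · intro i; exact sph_norm X
    · intro i j hij
      exact absurd (Subsingleton.elim i j) hij
  obtain ⟨b, hb⟩ := Orthonormal.exists_orthonormalBasis_extension_of_card_eq hcard horth
  exact ⟨b, hb 0 rfl⟩

/-- the cap -/
def cap (X : Sph n) (r : ℝ) : Set (Sph n) := {P | c2 P X ≤ r ^ 2}

theorem cap_meas (X : Sph n) (r : ℝ) : MeasurableSet (cap X r) :=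
  (isClosed_le (continuous_c2 X) continuous_const).measurableSet

/-- a box in the coordinates of a basis -/
def box (n : ℕ) (η : ℝ) : Set (Fin (n + 1) → ℝ) :=
  Set.pi univ (fun i => Ioo ((Fin.cons (1 / 4) (fun _ => -η) : Fin (n + 1) → ℝ) i)
    ((Fin.cons (1 / 2) (fun _ => η) : Fin (n + 1) → ℝ) i))

theorem box_vol (n : ℕ) {η : ℝ} (hη : 0 < η) :
    (volume (box n η)).toReal = 1 / 4 * (2 * η) ^ n := by
  unfold box
  rw [Real.volume_pi_Ioo_toReal]
  · rw [Fin.prod_univ_succ]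
    simp only [Fin.cons_zero, Fin.cons_succ, Finset.prod_const, Finset.card_univ, Fintype.card_fin]
    norm_num
    ring_nf
  · intro i
    refine Fin.cases ?_ ?_ i
    · simp; norm_num
    · intro j; simp; linarith

theorem box_sub (X : Sph n) (b : OrthonormalBasis (Fin (n + 1)) ℝ (EuclideanSpace ℝ (Fin (n + 1))))
    (hb : b 0 = X.1) {r : ℝ} (hr : 0 < r) (hr2 : r ≤ 2) :
    (fun y => (b.repr y).ofLp) ⁻¹' (box n (r / (8 * (n + 1))))
      ⊆ Ioo (0 : ℝ) 1 • ((↑) '' cap X r : Set (EuclideanSpace ℝ (Fin (n + 1)))) := by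
  intro y hy
  have hy' : ∀ i, (b.repr y) i ∈ Ioo ((Fin.cons (1 / 4) (fun _ => -(r / (8 * ((n : ℝ) + 1))))
      : Fin (n + 1) → ℝ) i) ((Fin.cons (1 / 2) (fun _ => (r / (8 * ((n : ℝ) + 1))))
      : Fin (n + 1) → ℝ) i) := fun i => hy i (mem_univ i)
  have h0 := hy' 0
  simp only [Fin.cons_zero] at h0
  set τ := (b.repr y) 0 with hτ
  set z : EuclideanSpace ℝ (Fin (n + 1)) := ∑ i : Fin n, (b.repr y) i.succ • b i.succ with hz
  have hyz : y = τ • X.1 + z := by
    have := b.sum_repr y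
    rw [Fin.sum_univ_succ, hb] at this
    exact this.symm
  have hzn : ‖z‖ ≤ r / 8 := by
    have h1 : ‖z‖ ≤ ∑ i : Fin n, r / (8 * ((n : ℝ) + 1)) := by
      refine (norm_sum_le _ _).trans (Finset.sum_le_sum (fun i _ => ?_))
      rw [norm_smul, b.norm_eq_one, mul_one]
      have := hy' i.succ
      simp only [Fin.cons_succ] at this
      exact (abs_lt.2 ⟨this.1, this.2⟩).le
    rw [Finset.sum_const, Finset.card_univ, Fintype.card_fin, nsmul_eq_mul] at h1
    have h2 : (n : ℝ) * (r / (8 * ((n : ℝ) + 1))) ≤ r / 8 := by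
      rw [mul_div_assoc', div_le_div_iff₀ (by positivity) (by norm_num)]
      nlinarith
    linarith
  have hτX : ‖τ • X.1‖ = τ := by
    rw [norm_smul, sph_norm, mul_one, Real.norm_eq_abs, abs_of_pos (by linarith [h0.1])]
  have hyz' : ‖y - τ • X.1‖ = ‖z‖ := by rw [hyz]; congr 1; abel
  have hylt : ‖y‖ < 1 := by
    have : ‖y‖ ≤ ‖τ • X.1‖ + ‖z‖ := by rw [hyz]; exact norm_add_le _ _
    rw [hτX] at this
    linarith [h0.2]
  have hyge : τ ≤ ‖y‖ + 0 := by
    have h1 : inner ℝ (b 0) y = τ := by rw [hτ, b.repr_apply_apply]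
    have h2 := abs_real_inner_le_norm (b 0) y
    rw [h1, b.norm_eq_one, one_mul] at h2
    linarith [le_abs_self τ]
  have hypos : 0 < ‖y‖ := by linarith [h0.1]
  have hy0 : ‖y‖ ≠ 0 := hypos.ne'
  have hPn : ‖‖y‖⁻¹ • y‖ = 1 := by
    rw [norm_smul, norm_inv, norm_norm, inv_mul_cancel₀ hy0]
  refine ⟨‖y‖, ⟨hypos, hylt⟩, ‖y‖⁻¹ • y, ⟨⟨‖y‖⁻¹ • y, by
    rw [mem_sphere_zero_iff_norm]; exact hPn⟩, ?_, rfl⟩, ?_⟩
  · show ‖‖y‖⁻¹ • y - X.1‖ ^ 2 ≤ r ^ 2
    have e1 : ‖y‖⁻¹ • y - X.1 = ‖y‖⁻¹ • ((y - τ • X.1) + (τ - ‖y‖) • X.1) := by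
      rw [smul_add, smul_sub, smul_smul, smul_smul, mul_sub, sub_smul, inv_mul_cancel₀ hy0,
        one_smul]
      abel
    have e2 : |τ - ‖y‖| ≤ ‖z‖ := by
      rw [← hyz']
      have := abs_norm_sub_norm_le y (τ • X.1)
      rw [hτX, abs_sub_comm] at this
      exact this
    have e3 : ‖‖y‖⁻¹ • y - X.1‖ ≤ r := by
      rw [e1, norm_smul, norm_inv, norm_norm]
      have e4 : ‖(y - τ • X.1) + (τ - ‖y‖) • X.1‖ ≤ ‖z‖ + ‖z‖ := by
        refine (norm_add_le _ _).trans (add_le_add hyz'.le ?_)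
        rw [norm_smul, sph_norm, mul_one]
        exact e2
      rw [inv_mul_le_iff₀ hypos]
      have e5 : 1 / 4 < ‖y‖ := by linarith [h0.1]
      nlinarith
    exact pow_le_pow_left₀ (norm_nonneg _) e3 2
  · show ‖y‖ • ‖y‖⁻¹ • y = y
    rw [smul_smul, mul_inv_cancel₀ hy0, one_smul]

theorem cap_measure (n : ℕ) : ∃ c : ℝ, 0 < c ∧ ∀ (X : Sph n) (r : ℝ), 0 < r → r ≤ 2 →
    c * r ^ n ≤ ((volume : Measure (EuclideanSpace ℝ (Fin (n + 1)))).toSphere).real (cap X r) := by
  refine ⟨((n : ℝ) + 1) * (1 / 4 * (1 / (4 * ((n : ℝ) + 1))) ^ n), by positivity, ?_⟩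
  intro X r hr hr2
  obtain ⟨b, hb⟩ := basis_exists X
  have hη : 0 < r / (8 * ((n : ℝ) + 1)) := by positivity
  have hmp : MeasurePreserving (fun y => (b.repr y).ofLp) volume
      (volume : Measure (Fin (n + 1) → ℝ)) :=
    (PiLp.volume_preserving_ofLp (Fin (n + 1))).comp b.measurePreserving_repr
  have hbox : MeasurableSet (box n (r / (8 * ((n : ℝ) + 1)))) := by
    unfold box
    exact MeasurableSet.pi countable_univ (fun i _ => measurableSet_Ioo)
  have h1 : volume ((fun y => (b.repr y).ofLp) ⁻¹' (box n (r / (8 * ((n : ℝ) + 1)))))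
      = volume (box n (r / (8 * ((n : ℝ) + 1)))) := hmp.measure_preimage hbox.nullMeasurableSet
  have h2 := measure_mono (μ := (volume : Measure (EuclideanSpace ℝ (Fin (n + 1)))))
    (box_sub X b hb hr hr2)
  rw [h1] at h2
  have h3 := Measure.toSphere_apply' (volume : Measure (EuclideanSpace ℝ (Fin (n + 1))))
    (cap_meas X r)
  have hfin : ((volume : Measure (EuclideanSpace ℝ (Fin (n + 1)))).toSphere) (cap X r) ≠ ⊤ :=
    measure_ne_top _ _
  have hdim : Module.finrank ℝ (EuclideanSpace ℝ (Fin (n + 1))) = n + 1 := by simp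
  rw [hdim] at h3
  have h4 : ((n : ℝ≥0∞) + 1) * volume (box n (r / (8 * ((n : ℝ) + 1))))
      ≤ ((volume : Measure (EuclideanSpace ℝ (Fin (n + 1)))).toSphere) (cap X r) := by
    rw [h3]
    push_cast
    gcongr
  have h5 := ENNReal.toReal_mono hfin h4
  rw [ENNReal.toReal_mul, box_vol n hη] at h5
  have h6 : ((n : ℝ≥0∞) + 1).toReal = (n : ℝ) + 1 := by
    rw [ENNReal.toReal_add (by simp) (by simp)]; simp
  rw [h6] at h5
  refine le_trans (le_of_eq ?_) h5
  have h7 : 2 * (r / (8 * ((n : ℝ) + 1))) = 1 / (4 * ((n : ℝ) + 1)) * r := by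
    field_simp
    ring
  rw [h7, mul_pow]
  ring

/-- lower bound of the volume -/
theorem vol_ge (M : ConfMetric n) (X : Sph n) {r C c : ℝ} (hr : 0 < r) (hC : 0 < C)
    (hc : c * r ^ n ≤ ((volume : Measure (EuclideanSpace ℝ (Fin (n + 1)))).toSphere).real (cap X r))
    (h : ∀ P, c2 P X ≤ r ^ 2 → M.h P ≤ C * M.h X) :
    c * (C⁻¹ * (r / M.h X)) ^ n ≤ M.volume := by
  have hX := M.pos X
  have hcont : Continuous (fun P : Sph n => (M.h P)⁻¹ ^ n) :=
    (M.continuous_h.inv₀ (fun P => (M.pos P).ne')).pow n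
  have hint : Integrable (fun P : Sph n => (M.h P)⁻¹ ^ n)
      (volume : Measure (EuclideanSpace ℝ (Fin (n + 1)))).toSphere := by
    have := hcont.continuousOn.integrableOn_compact
      (μ := (volume : Measure (EuclideanSpace ℝ (Fin (n + 1)))).toSphere)
      (isCompact_univ (X := Sph n))
    rwa [integrableOn_univ] at this
  have h1 : ((C * M.h X)⁻¹) ^ n
      * ((volume : Measure (EuclideanSpace ℝ (Fin (n + 1)))).toSphere).real (cap X r)
      ≤ ∫ P in cap X r, (M.h P)⁻¹ ^ n ∂(volume : Measure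
        (EuclideanSpace ℝ (Fin (n + 1)))).toSphere := by
    refine setIntegral_ge_of_const_le_real (cap_meas X r) (measure_ne_top _ _) (fun P hP => ?_)
      hint.integrableOn
    have hp := M.pos P
    have := h P hP
    gcongr
  have h2 : ∫ P in cap X r, (M.h P)⁻¹ ^ n ∂(volume : Measure
        (EuclideanSpace ℝ (Fin (n + 1)))).toSphere ≤ M.volume :=
    setIntegral_le_integral hint (Eventually.of_forall (fun P => by
      have := M.pos P
      positivity))
  have h3 : ((C * M.h X)⁻¹) ^ n * (c * r ^ n) ≤ ((C * M.h X)⁻¹) ^ n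
      * ((volume : Measure (EuclideanSpace ℝ (Fin (n + 1)))).toSphere).real (cap X r) :=
    mul_le_mul_of_nonneg_left hc (by positivity)
  refine le_trans (le_of_eq ?_) (h3.trans (h1.trans h2))
  have h4 : C⁻¹ * (r / M.h X) = (C * M.h X)⁻¹ * r := by
    field_simp
  rw [h4, mul_pow]
  ring

end

end Pool.Agent.Helper73.CF
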